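import Mathlib

/-!
Couplings with small metric distortion: `Close μ ν ε`.
-/

set_option autoImplicit false
set_option linter.unusedSectionVars false

open MeasureTheory ProbabilityTheory Set Filter Topology

namespace Pool.Agent.H59.Pyr

variable {α β γ : Type*}

/-- `Close μ ν ε`: some coupling of `μ` and `ν` gives mass at least `1 - ε` to a measurable set of
pairs on which the two metrics differ by at most `ε`. -/
def Close [PseudoMetricSpace α] [MeasurableSpace α] [PseudoMetricSpace β] [MeasurableSpace β]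
    (μ : Measure α) (ν : Measure β) (ε : ℝ) : Prop :=
  ∃ π : Measure (α × β), π.map Prod.fst = μ ∧ π.map Prod.snd = ν ∧
    ∃ S : Set (α × β), MeasurableSet S ∧ π Sᶜ ≤ ENNReal.ofReal ε ∧
      ∀ p ∈ S, ∀ q ∈ S, |dist p.1 q.1 - dist p.2 q.2| ≤ ε

section
variable [PseudoMetricSpace α] [MeasurableSpace α] [PseudoMetricSpace β] [MeasurableSpace β]
  [PseudoMetricSpace γ] [MeasurableSpace γ]
  {μ : Measure α} {ν : Measure β} {ρ : Measure γ} {ε ε' : ℝ}

theorem Close.mono (h : Close μ ν ε) (hε : ε ≤ ε') : Close μ ν ε' := by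
  obtain ⟨π, h1, h2, S, hS, h3, h4⟩ := h
  exact ⟨π, h1, h2, S, hS, h3.trans (ENNReal.ofReal_le_ofReal hε),
    fun p hp q hq => (h4 p hp q hq).trans hε⟩

theorem Close.symm (h : Close μ ν ε) : Close ν μ ε := by
  obtain ⟨π, h1, h2, S, hS, h3, h4⟩ := h
  refine ⟨π.map Prod.swap, ?_, ?_, Prod.swap ⁻¹' S, measurable_swap hS, ?_, ?_⟩
  · rw [Measure.map_map measurable_fst measurable_swap]
    exact h2
  · rw [Measure.map_map measurable_snd measurable_swap]
    exact h1
  · rw [Measure.map_apply measurable_swap (measurable_swap hS).compl]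
    have : Prod.swap ⁻¹' (Prod.swap ⁻¹' S)ᶜ = Sᶜ := by
      ext ⟨a, b⟩; simp
    rw [this]; exact h3
  · intro p hp q hq
    have := h4 _ hp _ hq
    rw [abs_sub_comm]
    exact this

theorem isProb_of_map_fst {π : Measure (α × β)} [IsProbabilityMeasure μ]
    (h : π.map Prod.fst = μ) : IsProbabilityMeasure π := by
  constructor
  have : π.map Prod.fst univ = 1 := by rw [h]; exact measure_univ
  rwa [Measure.map_apply measurable_fst MeasurableSet.univ, preimage_univ] at this

theorem Close.nonneg [IsProbabilityMeasure μ] (h : Close μ ν ε) : 0 ≤ ε := by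
  obtain ⟨π, h1, h2, S, hS, h3, h4⟩ := h
  have := isProb_of_map_fst h1
  by_contra hneg
  push Not at hneg
  rw [ENNReal.ofReal_of_nonpos hneg.le] at h3
  have h0 : π Sᶜ = 0 := le_antisymm h3 zero_le
  have hne : S.Nonempty := by
    rw [nonempty_iff_ne_empty]
    rintro rfl
    simp at h0
  obtain ⟨p, hp⟩ := hne
  have := h4 p hp p hp
  linarith [abs_nonneg (dist p.1 p.1 - dist p.2 p.2)]

theorem close_one [IsProbabilityMeasure μ] [IsProbabilityMeasure ν] : Close μ ν 1 := by
  refine ⟨μ.prod ν, ?_, ?_, ∅, MeasurableSet.empty, ?_, ?_⟩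
  · change (μ.prod ν).fst = μ
    exact Measure.fst_prod
  · change (μ.prod ν).snd = ν
    exact Measure.snd_prod
  · simp
  · intro p hp
    exact absurd hp (notMem_empty p)

end

section
variable [PseudoMetricSpace α] [SecondCountableTopology α] [MeasurableSpace α]
  [OpensMeasurableSpace α]
  [PseudoMetricSpace β] [SecondCountableTopology β] [MeasurableSpace β] [OpensMeasurableSpace β]
  {μ : Measure α} {ν : Measure β} {ε ε' : ℝ}

/-- A pair of maps from a measured space, close in distance off a small set, gives `Close`. -/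
theorem close_of_space {Ω : Type*} [MeasurableSpace Ω] (P : Measure Ω) {f : Ω → α} {g : Ω → β}
    (hf : Measurable f) (hg : Measurable g) (hμ : P.map f = μ) (hν : P.map g = ν)
    (S : Set Ω) (hS : P Sᶜ ≤ ENNReal.ofReal ε)
    (hd : ∀ s ∈ S, ∀ t ∈ S, |dist (f s) (f t) - dist (g s) (g t)| ≤ ε) : Close μ ν ε := by
  have hfg : Measurable (fun ω => (f ω, g ω)) := hf.prodMk hg
  refine ⟨P.map (fun ω => (f ω, g ω)), ?_, ?_, closure ((fun ω => (f ω, g ω)) '' S),
    isClosed_closure.measurableSet, ?_, ?_⟩
  · rw [Measure.map_map measurable_fst hfg]; exact hμ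
  · rw [Measure.map_map measurable_snd hfg]; exact hν
  · rw [Measure.map_apply hfg isClosed_closure.measurableSet.compl]
    refine (measure_mono ?_).trans hS
    intro ω hω hωS
    exact hω (subset_closure ⟨ω, hωS, rfl⟩)
  · have hcl : IsClosed {pq : (α × β) × (α × β) |
        |dist pq.1.1 pq.2.1 - dist pq.1.2 pq.2.2| ≤ ε} := by
      apply isClosed_le _ continuous_const
      fun_prop
    have hsub : closure ((fun ω => (f ω, g ω)) '' S) ×ˢ closure ((fun ω => (f ω, g ω)) '' S) ⊆
        {pq : (α × β) × (α × β) | |dist pq.1.1 pq.2.1 - dist pq.1.2 pq.2.2| ≤ ε} := by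
      rw [← closure_prod_eq]
      apply closure_minimal _ hcl
      rintro ⟨p, q⟩ ⟨⟨s, hs, rfl⟩, ⟨t, ht, rfl⟩⟩
      exact hd s hs t ht
    intro p hp q hq
    exact hsub (mk_mem_prod hp hq)

/-- An isometric measure preserving map gives `Close 0`. -/
theorem close_zero_of_isometry {f : α → β} (hf : Isometry f) (hfm : Measurable f)
    (h : μ.map f = ν) : Close μ ν 0 := by
  refine close_of_space μ measurable_id hfm Measure.map_id h univ (by simp) ?_
  intro s _ t _
  simp [hf.dist_eq]

theorem close_self : Close μ μ 0 := close_zero_of_isometry isometry_id measurable_id Measure.map_id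

end

/-- Gluing of two measures with a common marginal. -/
theorem exists_glue {α β γ : Type*} [MeasurableSpace α] [MeasurableSpace β] [MeasurableSpace γ]
    [StandardBorelSpace γ] [Nonempty γ]
    (π : Measure (α × β)) (ρ : Measure (β × γ)) [IsProbabilityMeasure π] [IsProbabilityMeasure ρ]
    (h : π.map Prod.snd = ρ.map Prod.fst) :
    ∃ Q : Measure ((α × β) × γ), IsProbabilityMeasure Q ∧ Q.map Prod.fst = π ∧
      Q.map (fun x => (x.1.2, x.2)) = ρ := by
  let κ : Kernel (α × β) γ := ρ.condKernel.comap Prod.snd measurable_snd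
  refine ⟨π ⊗ₘ κ, inferInstance, ?_, ?_⟩
  · change (π ⊗ₘ κ).fst = π
    exact Measure.fst_compProd π κ
  · have hg : Measurable (fun x : (α × β) × γ => (x.1.2, x.2)) := by fun_prop
    ext s hs
    rw [Measure.map_apply hg hs, Measure.compProd_apply (hg hs)]
    conv_rhs => rw [← ρ.disintegrate ρ.condKernel]
    rw [Measure.compProd_apply hs]
    have : ρ.fst = π.map Prod.snd := h.symm
    rw [this, lintegral_map _ measurable_snd]
    · rfl
    · exact Kernel.measurable_kernel_prodMk_left hs

section
variable [PseudoMetricSpace α] [SecondCountableTopology α] [MeasurableSpace α]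
  [OpensMeasurableSpace α]
  [PseudoMetricSpace β] [MeasurableSpace β]
  [PseudoMetricSpace γ] [SecondCountableTopology γ] [MeasurableSpace γ] [OpensMeasurableSpace γ]
  [StandardBorelSpace γ]
  {μ : Measure α} {ν : Measure β} {ρ : Measure γ} {ε ε' : ℝ}

theorem Close.trans [IsProbabilityMeasure μ] [IsProbabilityMeasure ν] [IsProbabilityMeasure ρ]
    (h : Close μ ν ε) (h' : Close ν ρ ε') : Close μ ρ (ε + ε') := by
  have he := h.nonneg
  have he' := h'.nonneg
  obtain ⟨π, h1, h2, S, hS, h3, h4⟩ := h
  obtain ⟨σ, g1, g2, T, hT, g3, g4⟩ := h'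
  have := isProb_of_map_fst h1
  have := isProb_of_map_fst g1
  have : Nonempty γ := by
    by_contra hne
    rw [not_nonempty_iff] at hne
    have : ρ univ = 1 := measure_univ
    rw [univ_eq_empty_iff.mpr hne] at this
    simp at this
  obtain ⟨Q, hQ, q1, q2⟩ := exists_glue π σ (h2.trans g1.symm)
  have hg : Measurable (fun x : (α × β) × γ => (x.1.2, x.2)) := by fun_prop
  refine close_of_space Q (f := fun x => x.1.1) (g := fun x => x.2)
    (measurable_fst.comp measurable_fst) measurable_snd ?_ ?_
    (Prod.fst ⁻¹' S ∩ (fun x : (α × β) × γ => (x.1.2, x.2)) ⁻¹' T) ?_ ?_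
  · rw [← h1, ← q1, Measure.map_map measurable_fst measurable_fst]; rfl
  · rw [← g2, ← q2, Measure.map_map measurable_snd hg]; rfl
  · rw [compl_inter, ENNReal.ofReal_add he he']
    refine (measure_union_le _ _).trans (add_le_add ?_ ?_)
    · rw [← q1, Measure.map_apply measurable_fst hS.compl] at h3
      exact h3
    · rw [← q2, Measure.map_apply hg hT.compl] at g3
      exact g3
  · rintro s ⟨hs1, hs2⟩ t ⟨ht1, ht2⟩
    have e1 := h4 _ hs1 _ ht1
    have e2 := g4 _ hs2 _ ht2
    simp only at e1 e2
    calc |dist s.1.1 t.1.1 - dist s.2 t.2|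
        = |(dist s.1.1 t.1.1 - dist s.1.2 t.1.2) + (dist s.1.2 t.1.2 - dist s.2 t.2)| := by
          congr 1; ring
      _ ≤ _ := (abs_add_le _ _).trans (add_le_add e1 e2)

end

end Pool.Agent.H59.Pyr
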