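import Mathlib
import Pool.Agent.H59.Pyr.Close

/-!
mm-spaces, parameters, the box distance and the space `𝒳` of isomorphism classes of mm-spaces.
-/

set_option autoImplicit false
set_option linter.unusedSectionVars false

open MeasureTheory ProbabilityTheory Set Filter Topology TopologicalSpace

namespace Pool.Agent.H59.Pyr

/-- An mm-space: a complete separable metric space with a fully supported Borel probability
measure. -/
structure MMSpace : Type 1 where
  /-- the underlying set -/
  carrier : Type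
  [metric : MetricSpace carrier]
  [complete : CompleteSpace carrier]
  [separable : SeparableSpace carrier]
  [meas : MeasurableSpace carrier]
  [borel : BorelSpace carrier]
  /-- the measure -/
  μ : Measure carrier
  [prob : IsProbabilityMeasure μ]
  [full : μ.IsOpenPosMeasure]

/-- Lebesgue measure on `I = [0,1)`. -/
noncomputable def leb : Measure (Ico (0 : ℝ) 1) := Measure.comap Subtype.val volume

namespace MMSpace

instance : CoeSort MMSpace (Type) := ⟨MMSpace.carrier⟩

instance (X : MMSpace) : MetricSpace X := X.metric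
instance (X : MMSpace) : CompleteSpace X := X.complete
instance (X : MMSpace) : SeparableSpace X := X.separable
instance (X : MMSpace) : SecondCountableTopology X :=
  UniformSpace.secondCountable_of_separable X.carrier
instance (X : MMSpace) : MeasurableSpace X := X.meas
instance (X : MMSpace) : BorelSpace X := X.borel
instance (X : MMSpace) : IsProbabilityMeasure X.μ := X.prob
instance (X : MMSpace) : X.μ.IsOpenPosMeasure := X.full

/-- Two mm-spaces are isomorphic if an isometry pushes one measure to the other. -/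
def Iso (X Y : MMSpace) : Prop := ∃ e : X ≃ᵢ Y, X.μ.map e = Y.μ

/-- A parameter of `X`: a Borel map `φ : [0,1) → X` with `φ_* 𝓛¹ = μ_X`. -/
def IsParam (X : MMSpace) (φ : Ico (0 : ℝ) 1 → X) : Prop :=
  Measurable φ ∧ leb.map φ = X.μ

/-- The set of `ε ≥ 0` admissible in the definition of the box distance. -/
def boxSet (X Y : MMSpace) : Set ℝ :=
  {ε | 0 ≤ ε ∧ ∃ (φ : Ico (0 : ℝ) 1 → X) (ψ : Ico (0 : ℝ) 1 → Y), X.IsParam φ ∧ Y.IsParam ψ ∧
    ∃ I₀ : Set (Ico (0 : ℝ) 1), MeasurableSet I₀ ∧ ENNReal.ofReal (1 - ε) ≤ leb I₀ ∧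
      ∀ s ∈ I₀, ∀ t ∈ I₀, |dist (φ s) (φ t) - dist (ψ s) (ψ t)| ≤ ε}

/-- The box distance between mm-spaces. -/
noncomputable def box (X Y : MMSpace) : ℝ := sInf (boxSet X Y)

theorem Iso.refl (X : MMSpace) : Iso X X :=
  ⟨IsometryEquiv.refl X, by
    change X.μ.map id = X.μ
    exact Measure.map_id⟩

theorem Iso.symm {X Y : MMSpace} (h : Iso X Y) : Iso Y X := by
  obtain ⟨e, he⟩ := h
  refine ⟨e.symm, ?_⟩
  rw [← he, Measure.map_map e.symm.continuous.measurable e.continuous.measurable]
  have : (e.symm : Y → X) ∘ (e : X → Y) = id := by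
    ext x; simp
  rw [this, Measure.map_id]

theorem Iso.trans {X Y Z : MMSpace} (h : Iso X Y) (h' : Iso Y Z) : Iso X Z := by
  obtain ⟨e, he⟩ := h
  obtain ⟨f, hf⟩ := h'
  refine ⟨e.trans f, ?_⟩
  rw [← hf, ← he, Measure.map_map f.continuous.measurable e.continuous.measurable]
  rfl

end MMSpace

/-- Isomorphism of mm-spaces, as a setoid. -/
instance mmSetoid : Setoid MMSpace where
  r := MMSpace.Iso
  iseqv := ⟨MMSpace.Iso.refl, MMSpace.Iso.symm, MMSpace.Iso.trans⟩

/-! ### Parameters versus couplings -/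

theorem leb_apply (s : Set (Ico (0 : ℝ) 1)) : leb s = volume (Subtype.val '' s : Set ℝ) :=
  (MeasurableEmbedding.subtype_coe measurableSet_Ico).comap_apply _ _

theorem leb_univ : leb univ = 1 := by
  rw [leb_apply, image_univ, Subtype.range_coe, Real.volume_Ico]
  simp

instance : IsProbabilityMeasure leb := ⟨leb_univ⟩

/-- The inclusion of `[0,1)` in `[0,1]`. -/
def incl (s : Ico (0 : ℝ) 1) : unitInterval := ⟨s.1, s.2.1, s.2.2.le⟩

theorem measurable_incl : Measurable incl := measurable_subtype_coe.subtype_mk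

theorem map_incl : leb.map incl = volume := by
  ext s hs
  rw [Measure.map_apply measurable_incl hs, unitInterval.volume_apply, leb_apply]
  apply le_antisymm
  · apply measure_mono
    rintro _ ⟨x, hx, rfl⟩
    exact ⟨incl x, hx, rfl⟩
  · have h1 : (Subtype.val '' s : Set ℝ) ⊆ (Subtype.val '' (incl ⁻¹' s)) ∪ {1} := by
      rintro _ ⟨x, hx, rfl⟩
      by_cases h : (x : ℝ) = 1
      · right; exact h
      · left
        exact ⟨⟨x.1, x.2.1, lt_of_le_of_ne x.2.2 h⟩, hx, rfl⟩
    calc volume (Subtype.val '' s : Set ℝ)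
        ≤ volume ((Subtype.val '' (incl ⁻¹' s) : Set ℝ) ∪ {1}) := measure_mono h1
      _ ≤ volume (Subtype.val '' (incl ⁻¹' s) : Set ℝ) + volume ({1} : Set ℝ) :=
          measure_union_le _ _
      _ = volume (Subtype.val '' (incl ⁻¹' s) : Set ℝ) := by simp

theorem mem_boxSet_iff {X Y : MMSpace} {ε : ℝ} : ε ∈ X.boxSet Y ↔ Close X.μ Y.μ ε := by
  constructor
  · rintro ⟨hε, φ, ψ, hφ, hψ, I₀, hI, hv, hd⟩
    refine close_of_space leb hφ.1 hψ.1 hφ.2 hψ.2 I₀ ?_ hd
    rw [prob_compl_eq_one_sub hI, tsub_le_iff_right]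
    calc (1 : ENNReal) = ENNReal.ofReal (ε + (1 - ε)) := by simp
      _ ≤ ENNReal.ofReal ε + ENNReal.ofReal (1 - ε) := ENNReal.ofReal_add_le
      _ ≤ _ := by gcongr
  · intro h
    have hε := h.nonneg
    obtain ⟨π, h1, h2, S, hS, h3, h4⟩ := h
    have := isProb_of_map_fst h1
    have : Nonempty (X × Y) := by
      by_contra hne
      rw [not_nonempty_iff] at hne
      have : π univ = 1 := measure_univ
      rw [univ_eq_empty_iff.mpr hne] at this
      simp at this
    obtain ⟨f, hf, hfπ⟩ := π.exists_measurable_map_eq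
    have hm : Measurable (f ∘ incl) := hf.comp measurable_incl
    have hmap : leb.map (f ∘ incl) = π := by
      rw [← hfπ, ← map_incl, Measure.map_map hf measurable_incl]
    refine ⟨hε, fun s => (f (incl s)).1, fun s => (f (incl s)).2,
      ⟨measurable_fst.comp hm, ?_⟩, ⟨measurable_snd.comp hm, ?_⟩, (f ∘ incl) ⁻¹' S, hm hS,
      ?_, fun s hs t ht => h4 _ hs _ ht⟩
    · rw [← h1, ← hmap, Measure.map_map measurable_fst hm]; rfl
    · rw [← h2, ← hmap, Measure.map_map measurable_snd hm]; rfl
    · rw [← Measure.map_apply hm hS, hmap]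
      have h5 : π S = 1 - π Sᶜ := by
        have := prob_compl_eq_one_sub (μ := π) hS.compl
        rwa [compl_compl] at this
      rw [h5, ENNReal.ofReal_sub _ hε, ENNReal.ofReal_one]
      exact tsub_le_tsub_left h3 _

theorem box_le {X Y : MMSpace} {ε : ℝ} (h : Close X.μ Y.μ ε) : X.box Y ≤ ε :=
  csInf_le ⟨0, fun _ hx => hx.1⟩ (mem_boxSet_iff.mpr h)

theorem boxSet_nonempty (X Y : MMSpace) : (X.boxSet Y).Nonempty :=
  ⟨1, mem_boxSet_iff.mpr close_one⟩

theorem close_of_box_lt {X Y : MMSpace} {r : ℝ} (h : X.box Y < r) : Close X.μ Y.μ r := by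
  obtain ⟨ε, hε, hlt⟩ := exists_lt_of_csInf_lt (boxSet_nonempty X Y) h
  exact (mem_boxSet_iff.mp hε).mono hlt.le

theorem box_nonneg (X Y : MMSpace) : 0 ≤ X.box Y :=
  le_csInf (boxSet_nonempty X Y) fun _ h => h.1

theorem box_le_one (X Y : MMSpace) : X.box Y ≤ 1 := box_le close_one

theorem box_self (X : MMSpace) : X.box X = 0 :=
  le_antisymm (box_le close_self) (box_nonneg _ _)

theorem box_comm_le (X Y : MMSpace) : X.box Y ≤ Y.box X := by
  apply le_csInf (boxSet_nonempty Y X)
  intro ε hε
  exact box_le (mem_boxSet_iff.mp hε).symm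

theorem box_comm (X Y : MMSpace) : X.box Y = Y.box X :=
  le_antisymm (box_comm_le X Y) (box_comm_le Y X)

theorem box_triangle (X Y Z : MMSpace) : X.box Z ≤ X.box Y + Y.box Z := by
  apply le_of_forall_pos_le_add
  intro δ hδ
  have h1 : Close X.μ Y.μ (X.box Y + δ / 2) := close_of_box_lt (by linarith)
  have h2 : Close Y.μ Z.μ (Y.box Z + δ / 2) := close_of_box_lt (by linarith)
  have := box_le (h1.trans h2)
  linarith

theorem box_eq_zero_of_iso {X Y : MMSpace} (h : X.Iso Y) : X.box Y = 0 := by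
  obtain ⟨e, he⟩ := h
  exact le_antisymm (box_le (close_zero_of_isometry e.isometry e.continuous.measurable he))
    (box_nonneg _ _)

theorem box_congr (X₁ Y₁ X₂ Y₂ : MMSpace) (hX : X₁ ≈ X₂) (hY : Y₁ ≈ Y₂) :
    X₁.box Y₁ = X₂.box Y₂ := by
  have h1 : X₁.box X₂ = 0 := box_eq_zero_of_iso hX
  have h2 : Y₁.box Y₂ = 0 := box_eq_zero_of_iso hY
  have h3 := box_triangle X₁ X₂ Y₁
  have h4 := box_triangle X₂ Y₂ Y₁
  have h5 := box_triangle X₂ X₁ Y₂
  have h6 := box_triangle X₁ Y₁ Y₂
  rw [box_comm Y₂ Y₁] at h4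
  rw [box_comm X₂ X₁] at h5
  linarith

/-- The set `𝒳` of isomorphism classes of mm-spaces. -/
def MM : Type 1 := Quotient mmSetoid

namespace MM

/-- The class of an mm-space. -/
def mk (X : MMSpace) : MM := Quotient.mk _ X

/-- The box distance on `𝒳`. -/
noncomputable def box : MM → MM → ℝ := Quotient.lift₂ MMSpace.box box_congr

/-- `𝒳` is (pseudo-)metrised by the box distance. -/
noncomputable instance : PseudoMetricSpace MM where
  dist := MM.box
  dist_self x := Quotient.inductionOn x fun X => box_self X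
  dist_comm x y := Quotient.inductionOn₂ x y fun X Y => box_comm X Y
  dist_triangle x y z := Quotient.inductionOn₃ x y z fun X Y Z => box_triangle X Y Z

/-- `Dom y x` stands for `y ≺ x`: some `1`-Lipschitz map `X → Y` pushes the measure of `X` to that
of `Y`. -/
def Dom (y x : MM) : Prop :=
  ∃ Y X : MMSpace, y = mk Y ∧ x = mk X ∧ ∃ f : X → Y, LipschitzWith 1 f ∧ X.μ.map f = Y.μ

theorem dist_mk (X Y : MMSpace) : dist (mk X) (mk Y) = X.box Y := rfl

theorem exists_rep (x : MM) : ∃ X : MMSpace, mk X = x := Quotient.exists_rep x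

theorem close_of_dist_lt {X Y : MMSpace} {r : ℝ} (h : dist (mk X) (mk Y) < r) :
    Close X.μ Y.μ r := close_of_box_lt h

theorem dist_le_of_close {X Y : MMSpace} {r : ℝ} (h : Close X.μ Y.μ r) :
    dist (mk X) (mk Y) ≤ r := box_le h

theorem dist_le_one (x y : MM) : dist x y ≤ 1 := by
  obtain ⟨X, rfl⟩ := exists_rep x
  obtain ⟨Y, rfl⟩ := exists_rep y
  exact box_le_one X Y

/-- Domination of classes, for given representatives. -/
theorem dom_mk {Y X : MMSpace} :
    Dom (mk Y) (mk X) ↔ ∃ f : X → Y, LipschitzWith 1 f ∧ X.μ.map f = Y.μ := by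
  constructor
  · rintro ⟨Y', X', hY, hX, f, hf, hm⟩
    obtain ⟨e, he⟩ : Y.Iso Y' := Quotient.exact hY
    obtain ⟨e', he'⟩ : X.Iso X' := Quotient.exact hX
    refine ⟨e.symm ∘ f ∘ e', ?_, ?_⟩
    · have := e.symm.isometry.lipschitz.comp (hf.comp e'.isometry.lipschitz)
      simpa using this
    · rw [← Measure.map_map e.symm.continuous.measurable
        (hf.continuous.measurable.comp e'.continuous.measurable),
        ← Measure.map_map hf.continuous.measurable e'.continuous.measurable, he', hm, ← he,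
        Measure.map_map e.symm.continuous.measurable e.continuous.measurable]
      have : (e.symm : Y' → Y) ∘ (e : Y → Y') = id := by
        ext x; simp
      rw [this, Measure.map_id]
  · rintro ⟨f, hf, hm⟩
    exact ⟨Y, X, rfl, rfl, f, hf, hm⟩

end MM

end Pool.Agent.H59.Pyr
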