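import Mathlib
import Pool.Agent.H59.Pyr.Space

/-!
Pyramids, weak convergence of pyramids, and the Fell and Wijsman topologies on the closed subsets
of `𝒳`.
-/

set_option autoImplicit false

open MeasureTheory Set Filter Topology TopologicalSpace

namespace Pool.Agent.H59.Pyr

/-- A pyramid: a nonempty `□`-closed subset of `𝒳`, downward closed under `≺`, in which any two
elements are dominated by a common element. -/
structure Pyramid : Type 1 where
  /-- the underlying set of classes of mm-spaces -/
  carrier : Set MM
  nonempty : carrier.Nonempty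
  isClosed : IsClosed carrier
  down : ∀ x ∈ carrier, ∀ y, MM.Dom y x → y ∈ carrier
  directed : ∀ x ∈ carrier, ∀ y ∈ carrier, ∃ z ∈ carrier, MM.Dom x z ∧ MM.Dom y z

namespace Pyramid

theorem ext {P Q : Pyramid} (h : P.carrier = Q.carrier) : P = Q := by
  cases P; cases Q; simp only at h; subst h; rfl

/-- A pyramid as a closed subset of `(𝒳, □)`. -/
def toCloseds (P : Pyramid) : Closeds MM := ⟨P.carrier, P.isClosed⟩

/-- Weak convergence `P n → Q`: `□(x, P n) → 0` for `x ∈ Q` and `liminf □(x, P n) > 0` for
`x ∉ Q`.  Here `Metric.infEDist x F = ⨅ y ∈ F, □(x, y)`, with value `∞` when `F = ∅`. -/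
def WeakConv (P : ℕ → Pyramid) (Q : Pyramid) : Prop :=
  (∀ x ∈ Q.carrier, Tendsto (fun n => Metric.infEDist x (P n).carrier) atTop (𝓝 0)) ∧
    ∀ x ∉ Q.carrier, 0 < liminf (fun n => Metric.infEDist x (P n).carrier) atTop

/-- `τ` is a compact metrizable topology on the set of pyramids whose convergent sequences are
exactly the weakly convergent ones. -/
def IsWeakTopology (τ : TopologicalSpace Pyramid) : Prop :=
  @CompactSpace Pyramid τ ∧ @MetrizableSpace Pyramid τ ∧
    ∀ (P : ℕ → Pyramid) (Q : Pyramid), Tendsto P atTop (@nhds Pyramid τ Q) ↔ WeakConv P Q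

end Pyramid

/-- The Fell topology on the closed subsets of `𝒳`: generated by the sets `{F | F ∩ U ≠ ∅}` for
`U` open and `{F | F ∩ K = ∅}` for `K` compact. -/
@[instance_reducible]
def fellTopology : TopologicalSpace (Closeds MM) :=
  generateFrom
    ({V : Set (Closeds MM) | ∃ U : Set MM, IsOpen U ∧
        V = {F : Closeds MM | ((F : Set MM) ∩ U).Nonempty}} ∪
      {V : Set (Closeds MM) | ∃ K : Set MM, IsCompact K ∧
        V = {F : Closeds MM | (F : Set MM) ∩ K = ∅}})

/-- The Wijsman topology on the closed subsets of `𝒳`: the weakest topology making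
`F ↦ □(x, F) ∈ [0,∞]` continuous for every `x`. -/
@[instance_reducible]
noncomputable def wijsmanTopology : TopologicalSpace (Closeds MM) :=
  ⨅ x : MM, TopologicalSpace.induced (fun F : Closeds MM => Metric.infEDist x (F : Set MM))
    inferInstance

end Pool.Agent.H59.Pyr
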