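import Mathlib
import Pool.Agent.H59.Pyr.Space

/-!
The mm-space `(supp μ, d, μ)` attached to a Borel probability measure `μ` on a complete separable
metric space.
-/

set_option autoImplicit false
set_option linter.unusedSectionVars false

open MeasureTheory ProbabilityTheory Set Filter Topology TopologicalSpace

namespace Pool.Agent.H59.Pyr

section
variable {α : Type} [MetricSpace α] [CompleteSpace α] [SecondCountableTopology α]
  [MeasurableSpace α] [BorelSpace α]

theorem measurableSet_support (μ : Measure α) : MeasurableSet μ.support :=
  Measure.isClosed_support.measurableSet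

theorem map_val_comap (μ : Measure α) :
    (μ.comap (Subtype.val : μ.support → α)).map Subtype.val = μ := by
  rw [map_comap_subtype_coe (measurableSet_support μ)]
  exact Measure.restrict_eq_self_of_ae_mem Measure.support_mem_ae

theorem comap_val_apply (μ : Measure α) (s : Set μ.support) :
    μ.comap (Subtype.val : μ.support → α) s = μ (Subtype.val '' s) :=
  (MeasurableEmbedding.subtype_coe (measurableSet_support μ)).comap_apply _ _

/-- The mm-space `(supp μ, d, μ)`. -/
noncomputable def ofMeasure (μ : Measure α) [IsProbabilityMeasure μ] : MMSpace where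
  carrier := μ.support
  complete := Measure.isClosed_support.isComplete.completeSpace_coe
  separable := inferInstance
  μ := μ.comap Subtype.val
  prob := by
    constructor
    rw [comap_val_apply, image_univ, Subtype.range_coe]
    have h := Measure.support_mem_ae (μ := μ)
    rw [mem_ae_iff] at h
    have h2 := prob_compl_eq_one_sub (μ := μ) (measurableSet_support μ).compl
    rw [compl_compl] at h2
    rw [h2, h, tsub_zero]
  full := by
    constructor
    intro U hU hne
    obtain ⟨V, hV, rfl⟩ := isOpen_induced_iff.mp hU
    obtain ⟨x, hx⟩ := hne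
    rw [comap_val_apply, Subtype.image_preimage_coe]
    have h1 := (Measure.mem_support_iff_forall x.1).mp x.2 V (hV.mem_nhds hx)
    have h : μ μ.supportᶜ = 0 := Measure.support_mem_ae (μ := μ)
    have h2 : μ V ≤ μ (μ.support ∩ V) + μ μ.supportᶜ := by
      refine (measure_mono ?_).trans (measure_union_le _ _)
      intro y hy
      by_cases hys : y ∈ μ.support
      · exact Or.inl ⟨hys, hy⟩
      · exact Or.inr hys
    rw [h, add_zero] at h2
    exact (h1.trans_le h2).ne'

variable {μ : Measure α} [IsProbabilityMeasure μ]

theorem close_ofMeasure : Close (ofMeasure μ).μ μ 0 :=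
  close_zero_of_isometry (f := (Subtype.val : μ.support → α)) isometry_subtype_coe
    measurable_subtype_coe (map_val_comap μ)

theorem dom_ofMeasure {Y : MMSpace} {f : Y → α} (hf : LipschitzWith 1 f) (h : Y.μ.map f = μ) :
    MM.Dom (MM.mk (ofMeasure μ)) (MM.mk Y) := by
  have hmem : ∀ y, f y ∈ μ.support := by
    intro y
    rw [Measure.mem_support_iff_forall]
    intro U hU
    obtain ⟨V, hVU, hV, hy⟩ := mem_nhds_iff.mp hU
    refine lt_of_lt_of_le ?_ (measure_mono hVU)
    rw [← h, Measure.map_apply hf.continuous.measurable hV.measurableSet]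
    exact (hV.preimage hf.continuous).measure_pos _ ⟨y, hy⟩
  rw [MM.dom_mk]
  refine ⟨fun y => ⟨f y, hmem y⟩, fun x y => hf x y, ?_⟩
  have hm : Measurable (fun y => (⟨f y, hmem y⟩ : μ.support)) :=
    hf.continuous.measurable.subtype_mk
  have key : Y.μ.map (fun y => (⟨f y, hmem y⟩ : μ.support)) =
      μ.comap (Subtype.val : μ.support → α) := by
    ext s hs
    have hs' : MeasurableSet (Subtype.val '' s : Set α) :=
      (MeasurableEmbedding.subtype_coe (measurableSet_support μ)).measurableSet_image.mpr hs
    rw [comap_val_apply, Measure.map_apply hm hs]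
    have h3 : μ (Subtype.val '' s) = Y.μ (f ⁻¹' (Subtype.val '' s)) :=
      (congrArg (fun m : Measure α => m (Subtype.val '' s)) h.symm).trans
        (Measure.map_apply hf.continuous.measurable hs')
    rw [h3]
    congr 1
    ext y
    simp [hmem y]
  exact key

/-- The class in `𝒳` of `(supp μ, d, μ)`. -/
noncomputable def cls (μ : ProbabilityMeasure α) : MM := MM.mk (ofMeasure (μ : Measure α))

variable {β : Type} [MetricSpace β] [CompleteSpace β] [SecondCountableTopology β]
  [MeasurableSpace β] [BorelSpace β]

theorem dist_cls_cls_le {μ : ProbabilityMeasure α} {ν : ProbabilityMeasure β} {r : ℝ}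
    (h : Close (μ : Measure α) (ν : Measure β) r) : dist (cls μ) (cls ν) ≤ r := by
  apply MM.dist_le_of_close
  have := close_ofMeasure (μ := (μ : Measure α)).trans
    (h.trans (close_ofMeasure (μ := (ν : Measure β))).symm)
  simpa using this

theorem dist_mk_cls_le {X : MMSpace} {ν : ProbabilityMeasure β} {r : ℝ}
    (h : Close X.μ (ν : Measure β) r) : dist (MM.mk X) (cls ν) ≤ r := by
  apply MM.dist_le_of_close
  have := h.trans (close_ofMeasure (μ := (ν : Measure β))).symm
  simpa using this

end

end Pool.Agent.H59.Pyr
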