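import Mathlib
import Pool.Agent.H59.Pyr.Close

/-!
Approximation of a measure by a Lipschitz image in a cube, uniformly over nearby measures.
-/

set_option autoImplicit false
set_option linter.unusedSectionVars false

open MeasureTheory ProbabilityTheory Set Filter Topology TopologicalSpace

namespace Pool.Agent.H59.Pyr

/-- The cube `[0,R]^N` (with the sup metric). -/
abbrev Cube (N R : ℕ) : Type := Fin N → Icc (0 : ℝ) R

instance (R : ℕ) : Nonempty (Icc (0 : ℝ) R) := ⟨⟨0, le_refl _, Nat.cast_nonneg R⟩⟩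

section
variable {α β : Type*} [PseudoMetricSpace α] [SecondCountableTopology α] [MeasurableSpace α]
  [OpensMeasurableSpace α]
  [PseudoMetricSpace β] [SecondCountableTopology β] [MeasurableSpace β] [OpensMeasurableSpace β]

theorem exists_balls (μ : Measure α) [IsProbabilityMeasure μ] {ε : ℝ} (hε : 0 < ε) :
    ∃ (N : ℕ) (x : Fin N → α), μ (⋃ i, Metric.closedBall (x i) (ε / 2))ᶜ ≤ ENNReal.ofReal ε := by
  have hne : Nonempty α := by
    by_contra hne
    rw [not_nonempty_iff] at hne
    have : μ univ = 1 := measure_univ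
    rw [univ_eq_empty_iff.mpr hne] at this
    simp at this
  set f : ℕ → Set α := fun n => Metric.closedBall (denseSeq α n) (ε / 2) with hf
  have hU : ⋃ n, f n = univ := by
    rw [eq_univ_iff_forall]
    intro y
    obtain ⟨n, hn⟩ := (denseRange_denseSeq α).exists_dist_lt y (half_pos hε)
    exact mem_iUnion.mpr ⟨n, by rw [hf]; exact Metric.mem_closedBall.mpr hn.le⟩
  have ht := tendsto_measure_iUnion_accumulate (μ := μ) (f := f)
  rw [hU, measure_univ] at ht
  have hlt : 1 - ENNReal.ofReal ε < 1 :=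
    ENNReal.sub_lt_self ENNReal.one_ne_top one_ne_zero (by simpa using hε)
  obtain ⟨n, hn⟩ := (ht.eventually (lt_mem_nhds hlt)).exists
  refine ⟨n + 1, fun i => denseSeq α i, ?_⟩
  have hm : MeasurableSet (⋃ i : Fin (n + 1), Metric.closedBall (denseSeq α i) (ε / 2)) :=
    MeasurableSet.iUnion fun i => Metric.isClosed_closedBall.measurableSet
  have hsub : accumulate f n ⊆ ⋃ i : Fin (n + 1), Metric.closedBall (denseSeq α i) (ε / 2) := by
    intro y hy
    rw [mem_accumulate] at hy
    obtain ⟨m, hm, hy⟩ := hy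
    exact mem_iUnion.mpr ⟨⟨m, by omega⟩, hy⟩
  rw [prob_compl_eq_one_sub hm, tsub_le_iff_right]
  have h1 : 1 - ENNReal.ofReal ε ≤ μ (⋃ i : Fin (n + 1), Metric.closedBall (denseSeq α i) (ε / 2)) :=
    hn.le.trans (measure_mono hsub)
  rw [tsub_le_iff_right] at h1
  rw [add_comm]
  exact h1

/-- **Key lemma**.  Every measure near `μ` has a `1`-Lipschitz image in a fixed cube that is
almost as near to `μ`. -/
theorem key_approx (μ : Measure α) [IsProbabilityMeasure μ] {ε : ℝ} (hε : 0 < ε) :
    ∃ N R : ℕ, ∀ (β : Type) [PseudoMetricSpace β] [SecondCountableTopology β] [MeasurableSpace β]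
      [OpensMeasurableSpace β] (ν : Measure β) (r : ℝ), Close μ ν r →
      ∃ f : β → Cube N R, LipschitzWith 1 f ∧ Close μ (ν.map f) (r + ε) := by
  obtain ⟨N, x, hx⟩ := exists_balls μ hε
  set U : Set α := ⋃ i, Metric.closedBall (x i) (ε / 2) with hUdef
  have hUm : MeasurableSet U := MeasurableSet.iUnion fun i => Metric.isClosed_closedBall.measurableSet
  have hb : Bornology.IsBounded U := Bornology.isBounded_iUnion.mpr fun i =>
    Metric.isBounded_closedBall
  obtain ⟨C, hC⟩ := Metric.isBounded_iff.mp hb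
  obtain ⟨R, hR⟩ := exists_nat_ge C
  refine ⟨N, R, ?_⟩
  intro β _ _ _ _ ν r h
  have hr := h.nonneg
  obtain ⟨π, h1, h2, S, hS, h3, h4⟩ := h
  let E : Fin N → Set β := fun i => Prod.snd '' (S ∩ Prod.fst ⁻¹' Metric.closedBall (x i) (ε / 2))
  let f : β → Cube N R := fun y i => ⟨min (Metric.infDist y (E i)) R,
    le_min Metric.infDist_nonneg (Nat.cast_nonneg R), min_le_right _ _⟩
  have hf : LipschitzWith 1 f := by
    apply LipschitzWith.of_dist_le_mul
    intro y y'
    rw [NNReal.coe_one, one_mul, dist_pi_le_iff dist_nonneg]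
    intro i
    have := ((Metric.lipschitz_infDist_pt (E i)).min_const (R : ℝ)).dist_le_mul y y'
    rwa [NNReal.coe_one, one_mul] at this
  refine ⟨f, hf, ?_⟩
  refine close_of_space π (f := Prod.fst) (g := f ∘ Prod.snd) measurable_fst
    (hf.continuous.measurable.comp measurable_snd) h1 ?_ (S ∩ Prod.fst ⁻¹' U) ?_ ?_
  · rw [← Measure.map_map hf.continuous.measurable measurable_snd, h2]
  · rw [compl_inter, ENNReal.ofReal_add hr hε.le]
    refine (measure_union_le _ _).trans (add_le_add h3 ?_)
    rw [← preimage_compl, ← Measure.map_apply measurable_fst hUm.compl, h1]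
    exact hx
  · rintro s ⟨hs, hsU⟩ t ⟨ht, htU⟩
    have h5 := abs_le.mp (h4 s hs t ht)
    have h6 : dist (f s.2) (f t.2) ≤ dist s.2 t.2 := by
      have := hf.dist_le_mul s.2 t.2
      rwa [NNReal.coe_one, one_mul] at this
    obtain ⟨i, hi⟩ := mem_iUnion.mp htU
    have hmem : t.2 ∈ E i := ⟨t, ⟨ht, hi⟩, rfl⟩
    have h7 : dist s.1 t.1 - (r + ε) ≤ Metric.infDist s.2 (E i) := by
      apply (Metric.le_infDist ⟨_, hmem⟩).mpr
      rintro _ ⟨u, ⟨hu, hui⟩, rfl⟩
      have h8 := abs_le.mp (h4 s hs u hu)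
      have h9 : dist s.1 t.1 ≤ dist s.1 u.1 + ε := by
        have e1 : dist u.1 (x i) ≤ ε / 2 := hui
        have e2 : dist t.1 (x i) ≤ ε / 2 := hi
        have e3 := dist_triangle s.1 u.1 t.1
        have e4 := dist_triangle_right u.1 t.1 (x i)
        linarith
      linarith [h8.2]
    have h8 : dist s.1 t.1 - (r + ε) ≤ R := by
      have := hC hsU htU
      linarith
    have h9 : dist s.1 t.1 - (r + ε) ≤ dist (f s.2) (f t.2) := by
      have e1 : Metric.infDist t.2 (E i) = 0 := Metric.infDist_zero_of_mem hmem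
      have e2 : dist (f s.2 i) (f t.2 i) ≤ dist (f s.2) (f t.2) := dist_le_pi_dist _ _ _
      have e3 : dist (f s.2 i) (f t.2 i) =
        |min (Metric.infDist s.2 (E i)) R - min (Metric.infDist t.2 (E i)) R| := rfl
      rw [e3, e1, min_eq_left (Nat.cast_nonneg R : (0 : ℝ) ≤ R), sub_zero] at e2
      exact (le_min h7 h8).trans ((le_abs_self _).trans e2)
    change |dist s.1 t.1 - dist (f s.2) (f t.2)| ≤ r + ε
    rw [abs_le]
    constructor
    · linarith [h5.1]
    · linarith

/-- **Transfer lemma**.  A `1`-Lipschitz map to a cube transfers to a nearby measure. -/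
theorem transfer {μ : Measure α} [IsProbabilityMeasure μ] {ν : Measure β} {r : ℝ}
    (h : Close μ ν r) {N R : ℕ} {f : α → Cube N R} (hf : LipschitzWith 1 f) :
    ∃ g : β → Cube N R, LipschitzWith 1 g ∧ Close (μ.map f) (ν.map g) (2 * r) := by
  have hr := h.nonneg
  obtain ⟨π, h1, h2, S, hS, h3, h4⟩ := h
  let H : Fin N → β → ℝ := fun i y => ⨅ s : S, ((f s.1.1 i : ℝ) + dist y s.1.2)
  have hbdd : ∀ i y, BddBelow (range fun s : S => ((f s.1.1 i : ℝ) + dist y s.1.2)) := by
    intro i y
    refine ⟨0, ?_⟩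
    rintro _ ⟨s, rfl⟩
    exact add_nonneg (f s.1.1 i).2.1 dist_nonneg
  have hH0 : ∀ i y, 0 ≤ H i y := fun i y =>
    Real.iInf_nonneg fun s => add_nonneg (f s.1.1 i).2.1 dist_nonneg
  have hHle : ∀ i y y', H i y ≤ H i y' + dist y y' := by
    intro i y y'
    rcases isEmpty_or_nonempty S with hE | hE
    · have : ∀ z, H i z = 0 := fun z => Real.iInf_of_isEmpty _
      rw [this, this, zero_add]
      exact dist_nonneg
    · rw [← sub_le_iff_le_add]
      apply le_ciInf
      intro s
      have e1 : H i y ≤ (f s.1.1 i : ℝ) + dist y s.1.2 := ciInf_le (hbdd i y) s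
      have e2 := dist_triangle y y' s.1.2
      linarith
  have hHL : ∀ i, LipschitzWith 1 (H i) := by
    intro i
    apply LipschitzWith.of_dist_le_mul
    intro y y'
    rw [NNReal.coe_one, one_mul, Real.dist_eq, abs_le]
    have e1 := hHle i y y'
    have e2 := hHle i y' y
    rw [dist_comm y' y] at e2
    constructor <;> linarith
  let g : β → Cube N R := fun y i => ⟨min (H i y) R,
    le_min (hH0 i y) (Nat.cast_nonneg R), min_le_right _ _⟩
  have hg : LipschitzWith 1 g := by
    apply LipschitzWith.of_dist_le_mul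
    intro y y'
    rw [NNReal.coe_one, one_mul, dist_pi_le_iff dist_nonneg]
    intro i
    have := ((hHL i).min_const (R : ℝ)).dist_le_mul y y'
    rwa [NNReal.coe_one, one_mul] at this
  refine ⟨g, hg, ?_⟩
  refine close_of_space π (f := f ∘ Prod.fst) (g := g ∘ Prod.snd)
    (hf.continuous.measurable.comp measurable_fst)
    (hg.continuous.measurable.comp measurable_snd) ?_ ?_ S ?_ ?_
  · rw [← Measure.map_map hf.continuous.measurable measurable_fst, h1]
  · rw [← Measure.map_map hg.continuous.measurable measurable_snd, h2]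
  · exact h3.trans (ENNReal.ofReal_le_ofReal (by linarith))
  · have key : ∀ s ∈ S, dist (f s.1) (g s.2) ≤ r := by
      intro s hs
      rw [dist_pi_le_iff hr]
      intro i
      have e1 : H i s.2 ≤ f s.1 i := by
        have : H i s.2 ≤ (f s.1 i : ℝ) + dist s.2 s.2 := ciInf_le (hbdd i s.2) ⟨s, hs⟩
        rwa [dist_self, add_zero] at this
      have e2 : (f s.1 i : ℝ) - r ≤ H i s.2 := by
        have : Nonempty S := ⟨⟨s, hs⟩⟩
        apply le_ciInf
        rintro ⟨t, ht⟩
        have e3 := (abs_le.mp (h4 s hs t ht)).2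
        have e4 : dist (f s.1 i) (f t.1 i) ≤ dist s.1 t.1 := by
          refine (dist_le_pi_dist _ _ _).trans ?_
          have := hf.dist_le_mul s.1 t.1
          rwa [NNReal.coe_one, one_mul] at this
        have e5 : (f s.1 i : ℝ) - f t.1 i ≤ dist (f s.1 i) (f t.1 i) := le_abs_self _
        simp only
        linarith
      have e3 : min (H i s.2) (R : ℝ) = H i s.2 := min_eq_left (e1.trans (f s.1 i).2.2)
      change |(f s.1 i : ℝ) - min (H i s.2) (R : ℝ)| ≤ r
      rw [e3, abs_le]
      constructor <;> linarith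
    intro s hs t ht
    have := dist_dist_dist_le (f s.1) (f t.1) (g s.2) (g t.2)
    rw [Real.dist_eq] at this
    have e1 := key s hs
    have e2 := key t ht
    change |dist (f s.1) (f t.1) - dist (g s.2) (g t.2)| ≤ 2 * r
    linarith

end

end Pool.Agent.H59.Pyr
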