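import Mathlib
import Pool.Agent.H59.Pyr.Supp
import Pool.Agent.H59.Pyr.Transfer

/-!
Continuity of `μ ↦ (supp μ, d, μ)` from the weak topology to the box distance.
-/

set_option autoImplicit false
set_option linter.unusedSectionVars false

open MeasureTheory ProbabilityTheory Set Filter Topology TopologicalSpace

namespace Pool.Agent.H59.Pyr

section
variable {α β : Type*} [PseudoMetricSpace α] [MeasurableSpace α]
  [PseudoMetricSpace β] [MeasurableSpace β]

/-- A partial coupling extends to a coupling. -/
theorem close_of_sub {μ : Measure α} {ν : Measure β} [IsProbabilityMeasure μ]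
    [IsProbabilityMeasure ν] {ε : ℝ} (π₀ : Measure (α × β)) (h1 : π₀.map Prod.fst ≤ μ)
    (h2 : π₀.map Prod.snd ≤ ν) {S : Set (α × β)} (hS : MeasurableSet S) (h0 : π₀ Sᶜ = 0)
    (hm : 1 ≤ π₀ univ + ENNReal.ofReal ε)
    (hd : ∀ p ∈ S, ∀ q ∈ S, |dist p.1 q.1 - dist p.2 q.2| ≤ ε) : Close μ ν ε := by
  have e1 : π₀.map Prod.fst univ = π₀ univ := by
    rw [Measure.map_apply measurable_fst MeasurableSet.univ, preimage_univ]
  have e2 : π₀.map Prod.snd univ = π₀ univ := by
    rw [Measure.map_apply measurable_snd MeasurableSet.univ, preimage_univ]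
  have hle : π₀ univ ≤ 1 := by
    rw [← e1, ← measure_univ (μ := μ)]
    exact h1 univ
  have f0 : IsFiniteMeasure π₀ := ⟨hle.trans_lt ENNReal.one_lt_top⟩
  have f1 : IsFiniteMeasure (π₀.map Prod.fst) := inferInstance
  have f2 : IsFiniteMeasure (π₀.map Prod.snd) := inferInstance
  set μ' := μ - π₀.map Prod.fst with hμ'
  set ν' := ν - π₀.map Prod.snd with hν'
  set c : ENNReal := 1 - π₀ univ with hc
  have c1 : μ' univ = c := by
    rw [hμ', Measure.sub_apply MeasurableSet.univ h1, e1, measure_univ]
  have c2 : ν' univ = c := by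
    rw [hν', Measure.sub_apply MeasurableSet.univ h2, e2, measure_univ]
  have ctop : c ≠ ⊤ := ne_top_of_le_ne_top ENNReal.one_ne_top tsub_le_self
  have hfin1 : IsFiniteMeasure μ' := ⟨by rw [c1]; exact ctop.lt_top⟩
  have hfin2 : IsFiniteMeasure ν' := ⟨by rw [c2]; exact ctop.lt_top⟩
  have k1 : c⁻¹ • c • μ' = μ' := by
    by_cases hc0 : c = 0
    · rw [hc0] at c1
      rw [Measure.measure_univ_eq_zero.mp c1]; simp
    · rw [smul_smul, ENNReal.inv_mul_cancel hc0 ctop, one_smul]
  have k2 : c⁻¹ • c • ν' = ν' := by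
    by_cases hc0 : c = 0
    · rw [hc0] at c2
      rw [Measure.measure_univ_eq_zero.mp c2]; simp
    · rw [smul_smul, ENNReal.inv_mul_cancel hc0 ctop, one_smul]
  refine ⟨π₀ + c⁻¹ • μ'.prod ν', ?_, ?_, S, hS, ?_, hd⟩
  · rw [Measure.map_add _ _ measurable_fst, Measure.map_smul, Measure.map_fst_prod, c2, k1,
      add_comm, hμ']
    exact Measure.sub_add_cancel_of_le h1
  · rw [Measure.map_add _ _ measurable_snd, Measure.map_smul, Measure.map_snd_prod, c1, k2,
      add_comm, hν']
    exact Measure.sub_add_cancel_of_le h2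
  · rw [Measure.add_apply, h0, zero_add, Measure.smul_apply, smul_eq_mul]
    calc c⁻¹ * (μ'.prod ν') Sᶜ ≤ c⁻¹ * (μ'.prod ν') univ := by gcongr; exact subset_univ _
      _ = c⁻¹ * (c * c) := by rw [← univ_prod_univ, Measure.prod_prod, c1, c2]
      _ ≤ c := by
        by_cases hc0 : c = 0
        · simp [hc0]
        · rw [← mul_assoc, ENNReal.inv_mul_cancel hc0 ctop, one_mul]
      _ ≤ ENNReal.ofReal ε := by
        rw [hc, tsub_le_iff_right, add_comm]; exact hm

end

section
variable {α : Type*} [PseudoMetricSpace α] [SecondCountableTopology α] [MeasurableSpace α]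
  [OpensMeasurableSpace α]

theorem close_of_cells {μ ν : Measure α} [IsProbabilityMeasure μ] [IsProbabilityMeasure ν]
    {δ : ℝ} {N : ℕ} (A : Fin N → Set α) (hA : ∀ i, MeasurableSet (A i))
    (hdisj : Pairwise (Function.onFun Disjoint A))
    (hdiam : ∀ i, ∀ x ∈ A i, ∀ y ∈ A i, dist x y ≤ δ)
    (hsum : 1 ≤ ∑ i, min (μ (A i)) (ν (A i)) + ENNReal.ofReal (2 * δ)) :
    Close μ ν (2 * δ) := by
  let w : Fin N → ENNReal := fun i => min (μ (A i)) (ν (A i)) / (μ (A i) * ν (A i))
  have hfin : ∀ (m : Measure α) [IsProbabilityMeasure m] (i : Fin N), m (A i) ≠ ⊤ :=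
    fun m _ i => measure_ne_top m _
  have hw : ∀ i, w i * (μ (A i) * ν (A i)) = min (μ (A i)) (ν (A i)) := by
    intro i
    by_cases h1 : μ (A i) = 0
    · simp [w, h1]
    by_cases h2 : ν (A i) = 0
    · simp [w, h2]
    exact ENNReal.div_mul_cancel (mul_ne_zero h1 h2) (ENNReal.mul_ne_top (hfin μ i) (hfin ν i))
  have hw1 : ∀ i, w i * ν (A i) ≤ 1 := by
    intro i
    by_cases h1 : μ (A i) = 0
    · simp [w, h1]
    have h3 : (w i * ν (A i)) * μ (A i) ≤ 1 * μ (A i) := by
      rw [one_mul, mul_assoc, mul_comm (ν (A i)), hw]; exact min_le_left _ _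
    exact (ENNReal.mul_le_mul_iff_left h1 (hfin μ i)).mp h3
  have hw2 : ∀ i, w i * μ (A i) ≤ 1 := by
    intro i
    by_cases h1 : ν (A i) = 0
    · simp [w, h1]
    have h3 : (w i * μ (A i)) * ν (A i) ≤ 1 * ν (A i) := by
      rw [one_mul, mul_assoc, hw]; exact min_le_right _ _
    exact (ENNReal.mul_le_mul_iff_left h1 (hfin ν i)).mp h3
  have hsumle : ∀ (m : Measure α) [IsProbabilityMeasure m], ∑ i, m.restrict (A i) ≤ m := by
    intro m _
    rw [Measure.le_iff]
    intro s hs
    rw [Measure.finsetSum_apply]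
    have h1 : ∀ i, m.restrict (A i) s = m (s ∩ A i) := fun i => Measure.restrict_apply hs
    simp only [h1]
    rw [← tsum_fintype (L := .unconditional _), ← measure_iUnion _ fun i => hs.inter (hA i)]
    · exact measure_mono (iUnion_subset fun i => inter_subset_left)
    · intro i j hij
      exact (hdisj hij).mono inter_subset_right inter_subset_right
  let π₀ : Measure (α × α) := ∑ i, w i • (μ.restrict (A i)).prod (ν.restrict (A i))
  have hπ₀ : π₀ = ∑ i, w i • (μ.restrict (A i)).prod (ν.restrict (A i)) := rfl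
  let S : Set (α × α) := ⋃ i, A i ×ˢ A i
  have hSm : MeasurableSet S := MeasurableSet.iUnion fun i => (hA i).prod (hA i)
  refine close_of_sub π₀ ?_ ?_ hSm ?_ ?_ ?_
  · rw [hπ₀, Measure.map_finset_sum measurable_fst.aemeasurable]
    refine le_trans (Finset.sum_le_sum fun i _ => ?_) (hsumle μ)
    rw [Measure.map_smul, Measure.map_fst_prod, smul_smul, Measure.restrict_apply_univ]
    calc (w i * ν (A i)) • μ.restrict (A i) ≤ (1 : ENNReal) • μ.restrict (A i) := by
          gcongr; exact hw1 i
      _ = μ.restrict (A i) := one_smul _ _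
  · rw [hπ₀, Measure.map_finset_sum measurable_snd.aemeasurable]
    refine le_trans (Finset.sum_le_sum fun i _ => ?_) (hsumle ν)
    rw [Measure.map_smul, Measure.map_snd_prod, smul_smul, Measure.restrict_apply_univ]
    calc (w i * μ (A i)) • ν.restrict (A i) ≤ (1 : ENNReal) • ν.restrict (A i) := by
          gcongr; exact hw2 i
      _ = ν.restrict (A i) := one_smul _ _
  · rw [hπ₀, Measure.finsetSum_apply]
    apply Finset.sum_eq_zero
    intro i _
    rw [Measure.smul_apply, Measure.prod_restrict, Measure.restrict_apply hSm.compl]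
    have : Sᶜ ∩ A i ×ˢ A i = ∅ := by
      rw [← disjoint_iff_inter_eq_empty]
      exact disjoint_compl_left.mono_right (subset_iUnion (fun i => A i ×ˢ A i) i)
    rw [this]; simp
  · refine hsum.trans_eq ?_
    congr 1
    rw [hπ₀, Measure.finsetSum_apply]
    apply Finset.sum_congr rfl
    intro i _
    rw [Measure.smul_apply, ← univ_prod_univ, Measure.prod_prod, Measure.restrict_apply_univ,
      Measure.restrict_apply_univ, smul_eq_mul, hw]
  · intro p hp q hq
    obtain ⟨i, hi⟩ := mem_iUnion.mp hp
    obtain ⟨j, hj⟩ := mem_iUnion.mp hq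
    have h1 := hdiam i _ hi.1 _ hi.2
    have h2 := hdiam j _ hj.1 _ hj.2
    have h3 := dist_dist_dist_le p.1 q.1 p.2 q.2
    rw [Real.dist_eq] at h3
    linarith

theorem exists_cells (μ : Measure α) [IsProbabilityMeasure μ] {ε : ℝ} (hε : 0 < ε) :
    ∃ (N : ℕ) (A : Fin N → Set α), (∀ i, MeasurableSet (A i)) ∧ (∀ i, μ (frontier (A i)) = 0) ∧
      Pairwise (Function.onFun Disjoint A) ∧ (∀ i, ∀ x ∈ A i, ∀ y ∈ A i, dist x y ≤ ε) ∧
      1 ≤ ∑ i, μ (A i) + ENNReal.ofReal ε := by
  have hne : Nonempty α := by
    by_contra hne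
    rw [not_nonempty_iff] at hne
    have : μ univ = 1 := measure_univ
    rw [univ_eq_empty_iff.mpr hne] at this
    simp at this
  have hr : ∀ n, ∃ r ∈ Ioo (ε / 4) (ε / 2), μ (frontier (Metric.ball (denseSeq α n) r)) = 0 := by
    intro n
    have := exists_null_frontier_thickening μ {denseSeq α n} (show ε / 4 < ε / 2 by linarith)
    simpa only [Metric.thickening_singleton] using this
  choose r hr hr0 using hr
  set f : ℕ → Set α := fun n => Metric.ball (denseSeq α n) (r n) with hf
  have hfr : ∀ n, μ (frontier (partialSups f n)) = 0 := by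
    intro n
    induction n with
    | zero => simpa using hr0 0
    | succ n ih =>
      rw [partialSups_add_one]
      refine measure_mono_null (frontier_union_subset _ _) ?_
      exact measure_union_null (measure_mono_null inter_subset_left ih)
        (measure_mono_null inter_subset_right (hr0 (n + 1)))
  have hA0 : ∀ n, μ (frontier (disjointed f n)) = 0 := by
    intro n
    cases n with
    | zero => rw [disjointed_zero]; exact hr0 0
    | succ n =>
      have : disjointed f (n + 1) = f (n + 1) \ partialSups f n :=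
        disjointed_succ f (not_isMax n)
      rw [this, sdiff_eq]
      refine measure_mono_null (frontier_inter_subset _ _) ?_
      refine measure_union_null (measure_mono_null inter_subset_left (hr0 (n + 1)))
        (measure_mono_null inter_subset_right ?_)
      rw [frontier_compl]; exact hfr n
  have hAm : ∀ n, MeasurableSet (disjointed f n) :=
    fun n => MeasurableSet.disjointed (fun n => Metric.isOpen_ball.measurableSet) n
  have hU : ⋃ n, disjointed f n = univ := by
    rw [iUnion_disjointed, eq_univ_iff_forall]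
    intro y
    obtain ⟨n, hn⟩ := (denseRange_denseSeq α).exists_dist_lt y (show 0 < ε / 4 by linarith)
    exact mem_iUnion.mpr ⟨n, Metric.mem_ball.mpr (hn.trans (hr n).1)⟩
  have hsum : HasSum (fun n => μ (disjointed f n)) 1 := by
    have h1 := measure_iUnion (μ := μ) (disjoint_disjointed f) hAm
    rw [hU, measure_univ] at h1
    rw [h1]
    exact ENNReal.summable.hasSum
  have hlt : 1 - ENNReal.ofReal ε < 1 :=
    ENNReal.sub_lt_self ENNReal.one_ne_top one_ne_zero (by simpa using hε)
  obtain ⟨n, hn⟩ := (hsum.tendsto_sum_nat.eventually (lt_mem_nhds hlt)).exists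
  refine ⟨n, fun i => disjointed f i, fun i => hAm i, fun i => hA0 i, ?_, ?_, ?_⟩
  · intro i j hij
    exact disjoint_disjointed f (fun h => hij (Fin.ext h))
  · intro i x hx y hy
    have hx' : dist x (denseSeq α i) < r i := disjointed_subset f i hx
    have hy' : dist y (denseSeq α i) < r i := disjointed_subset f i hy
    have := (hr i).2
    have := dist_triangle_right x y (denseSeq α i)
    linarith
  · rw [← tsub_le_iff_right]
    refine hn.le.trans ?_
    rw [Finset.sum_range]

/-- Measures weakly near `μ` are `Close` to `μ`. -/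
theorem eventually_close (μ : ProbabilityMeasure α) {ε : ℝ} (hε : 0 < ε) :
    ∀ᶠ ν : ProbabilityMeasure α in 𝓝 μ, Close (μ : Measure α) (ν : Measure α) ε := by
  have hmin : 0 < min ε 1 := lt_min hε one_pos
  obtain ⟨N, A, hA, hA0, hdisj, hdiam, hsum⟩ := exists_cells (μ : Measure α) (half_pos hmin)
  have ht : Tendsto (fun ν : ProbabilityMeasure α =>
      ∑ i, min ((μ : Measure α) (A i)) ((ν : Measure α) (A i))) (𝓝 μ)
      (𝓝 (∑ i, min ((μ : Measure α) (A i)) ((μ : Measure α) (A i)))) := by
    apply tendsto_finsetSum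
    intro i _
    exact tendsto_const_nhds.min
      (ProbabilityMeasure.tendsto_measure_of_null_frontier_of_tendsto' tendsto_id (hA0 i))
  simp only [min_self] at ht
  have hlt : 1 - ENNReal.ofReal ε < ∑ i, (μ : Measure α) (A i) := by
    have h1 : 1 - ENNReal.ofReal (min ε 1 / 2) ≤ ∑ i, (μ : Measure α) (A i) := by
      rw [tsub_le_iff_right]; exact hsum
    refine lt_of_lt_of_le ?_ h1
    rw [← ENNReal.ofReal_one, ← ENNReal.ofReal_sub _ hε.le, ← ENNReal.ofReal_sub _ (half_pos hmin).le]
    rw [ENNReal.ofReal_lt_ofReal_iff]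
    · linarith [min_le_left ε 1]
    · linarith [min_le_right ε 1]
  filter_upwards [ht.eventually (lt_mem_nhds hlt)] with ν hν
  have := close_of_cells (μ := (μ : Measure α)) (ν := (ν : Measure α)) (δ := ε / 2) A hA hdisj
    (fun i x hx y hy => (hdiam i x hx y hy).trans (by linarith [min_le_left ε 1]))
    (by
      rw [mul_div_cancel₀ _ (two_ne_zero)]
      rw [← tsub_le_iff_right]; exact hν.le)
  rwa [mul_div_cancel₀ _ (two_ne_zero)] at this

end

/-- The class of `(supp μ, d, μ)` depends continuously on `μ`. -/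
theorem continuous_cls {α : Type} [MetricSpace α] [CompleteSpace α] [SecondCountableTopology α]
    [MeasurableSpace α] [BorelSpace α] : Continuous (cls : ProbabilityMeasure α → MM) := by
  rw [continuous_iff_continuousAt]
  intro μ
  rw [Metric.continuousAt_iff']
  intro ε hε
  filter_upwards [eventually_close μ (half_pos hε)] with ν hν
  have := dist_cls_cls_le hν.symm
  linarith

end Pool.Agent.H59.Pyr
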