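import Mathlib
import Pool.Agent.H59.Pyr.Pyramid
import Pool.Agent.H59.Pyr.Weak

/-!
Approximation lemmas inside a single pyramid.
-/

set_option autoImplicit false
set_option linter.unusedSectionVars false

open MeasureTheory Set Filter Topology TopologicalSpace

namespace Pool.Agent.H59.Pyr

open Metric

/-- The image of the measure of an mm-space under a continuous map. -/
noncomputable def push {α : Type} [MetricSpace α] [MeasurableSpace α] [BorelSpace α]
    (Y : MMSpace) {f : Y → α} (hf : LipschitzWith 1 f) : ProbabilityMeasure α :=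
  ⟨Y.μ.map f, Measure.isProbabilityMeasure_map hf.continuous.measurable.aemeasurable⟩

theorem cls_push_dom {α : Type} [MetricSpace α] [CompleteSpace α] [SecondCountableTopology α]
    [MeasurableSpace α] [BorelSpace α] {Y : MMSpace} {f : Y → α} (hf : LipschitzWith 1 f) :
    MM.Dom (cls (push Y hf)) (MM.mk Y) :=
  dom_ofMeasure (μ := ((push Y hf : ProbabilityMeasure α) : Measure α)) hf rfl

theorem exists_dist_lt_of_infEDist {x : MM} {F : Set MM} {r : ℝ}
    (h : infEDist x F < ENNReal.ofReal r) : ∃ y ∈ F, dist x y < r := by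
  obtain ⟨y, hy, hlt⟩ := infEDist_lt_iff.mp h
  refine ⟨y, hy, ?_⟩
  rw [edist_dist] at hlt
  exact (ENNReal.ofReal_lt_ofReal_iff_of_nonneg dist_nonneg).mp hlt

theorem infEDist_le_of_dist_le {x y : MM} {F : Set MM} (hy : y ∈ F) {r : ℝ} (h : dist x y ≤ r) :
    infEDist x F ≤ ENNReal.ofReal r := by
  refine (infEDist_le_edist_of_mem hy).trans ?_
  rw [edist_dist]
  exact ENNReal.ofReal_le_ofReal h

/-- The compact set of classes coming from measures on the cube `[0,R]^N`. -/
def cubeSet (N R : ℕ) : Set MM := range (cls : ProbabilityMeasure (Cube N R) → MM)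

theorem isCompact_cubeSet (N R : ℕ) : IsCompact (cubeSet N R) := isCompact_range continuous_cls

/-- Key lemma on the level of classes. -/
theorem exists_cube (x : MM) {ε : ℝ} (hε : 0 < ε) :
    ∃ N R : ℕ, ∀ (y : MM) (r : ℝ), dist x y < r →
      ∃ ν : ProbabilityMeasure (Cube N R), MM.Dom (cls ν) y ∧ dist x (cls ν) ≤ r + ε := by
  obtain ⟨X, rfl⟩ := MM.exists_rep x
  obtain ⟨N, R, H⟩ := key_approx X.μ hε
  refine ⟨N, R, ?_⟩
  intro y r hr
  obtain ⟨Y, rfl⟩ := MM.exists_rep y
  obtain ⟨f, hf, hc⟩ := H Y Y.μ r (MM.close_of_dist_lt hr)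
  exact ⟨push Y hf, cls_push_dom hf, dist_mk_cls_le hc⟩

theorem exists_cube_pyramid (x : MM) {ε : ℝ} (hε : 0 < ε) :
    ∃ N R : ℕ, ∀ (P : Pyramid) (r : ℝ), infEDist x P.carrier < ENNReal.ofReal r →
      ∃ ν : ProbabilityMeasure (Cube N R), cls ν ∈ P.carrier ∧ dist x (cls ν) ≤ r + ε := by
  obtain ⟨N, R, H⟩ := exists_cube x hε
  refine ⟨N, R, ?_⟩
  intro P r hr
  obtain ⟨y, hy, hlt⟩ := exists_dist_lt_of_infEDist hr
  obtain ⟨ν, hν, hd⟩ := H y r hlt
  exact ⟨ν, P.down y hy _ hν, hd⟩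

/-- An element dominated by `x` is near `P` if `x` is. -/
theorem down_approx {x x' : MM} (h : MM.Dom x' x) (P : Pyramid) {δ : ℝ} (hδ : 0 < δ)
    (hx : infEDist x P.carrier < ENNReal.ofReal δ) :
    infEDist x' P.carrier ≤ ENNReal.ofReal (3 * δ) := by
  obtain ⟨X, rfl⟩ := MM.exists_rep x
  obtain ⟨X', rfl⟩ := MM.exists_rep x'
  rw [MM.dom_mk] at h
  obtain ⟨G, hG, hGm⟩ := h
  obtain ⟨N, R, H⟩ := key_approx X'.μ hδ
  obtain ⟨F, hF, hc⟩ := H X' X'.μ 0 close_self
  obtain ⟨y, hy, hlt⟩ := exists_dist_lt_of_infEDist hx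
  obtain ⟨Y, rfl⟩ := MM.exists_rep y
  have hFG : LipschitzWith 1 (F ∘ G) := by simpa using hF.comp hG
  obtain ⟨g, hg, hc2⟩ := transfer (MM.close_of_dist_lt hlt) hFG
  have e1 : X.μ.map (F ∘ G) = X'.μ.map F := by
    rw [← hGm, Measure.map_map hF.continuous.measurable hG.continuous.measurable]
  rw [e1] at hc2
  have i1 : IsProbabilityMeasure (X'.μ.map F) :=
    Measure.isProbabilityMeasure_map hF.continuous.measurable.aemeasurable
  have i2 : IsProbabilityMeasure (Y.μ.map g) :=
    Measure.isProbabilityMeasure_map hg.continuous.measurable.aemeasurable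
  have hc3 : Close X'.μ (Y.μ.map g) (0 + δ + 2 * δ) := hc.trans hc2
  have hc4 : Close X'.μ ((push Y hg : ProbabilityMeasure (Cube N R)) : Measure (Cube N R))
      (3 * δ) := hc3.mono (by linarith)
  exact infEDist_le_of_dist_le (P.down _ hy _ (cls_push_dom hg)) (dist_mk_cls_le hc4)

/-- The couplings of two mm-spaces. -/
def couplings (X Y : MMSpace) : Set (ProbabilityMeasure (X × Y)) :=
  {ρ | (ρ : Measure (X × Y)).map Prod.fst = X.μ ∧ (ρ : Measure (X × Y)).map Prod.snd = Y.μ}

theorem couplings_nonempty (X Y : MMSpace) : (couplings X Y).Nonempty := by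
  refine ⟨⟨X.μ.prod Y.μ, inferInstance⟩, ?_, ?_⟩
  · change (X.μ.prod Y.μ).fst = X.μ
    exact Measure.fst_prod
  · change (X.μ.prod Y.μ).snd = Y.μ
    exact Measure.snd_prod

theorem isClosed_couplings (X Y : MMSpace) : IsClosed (couplings X Y) := by
  have h1 : IsClosed {ρ : ProbabilityMeasure (X × Y) |
      ρ.map (f := Prod.fst) measurable_fst.aemeasurable = ⟨X.μ, inferInstance⟩} :=
    isClosed_eq (ProbabilityMeasure.continuous_map continuous_fst) continuous_const
  have h2 : IsClosed {ρ : ProbabilityMeasure (X × Y) |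
      ρ.map (f := Prod.snd) measurable_snd.aemeasurable = ⟨Y.μ, inferInstance⟩} :=
    isClosed_eq (ProbabilityMeasure.continuous_map continuous_snd) continuous_const
  convert h1.inter h2 using 1
  ext ρ
  simp only [couplings, mem_inter_iff, mem_ofPred_eq]
  constructor
  · rintro ⟨a, b⟩
    exact ⟨Subtype.ext a, Subtype.ext b⟩
  · rintro ⟨a, b⟩
    exact ⟨congrArg Subtype.val a, congrArg Subtype.val b⟩

theorem isCompact_couplings (X Y : MMSpace) : IsCompact (couplings X Y) := by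
  have h := isCompact_closure_of_isTightMeasureSet (S := couplings X Y) (by
    apply IsTightMeasureSet.prodMk
    · refine (isTightMeasureSet_singleton (μ := X.μ)).subset ?_
      rintro _ ⟨_, ⟨ρ, hρ, rfl⟩, rfl⟩
      exact hρ.1
    · refine (isTightMeasureSet_singleton (μ := Y.μ)).subset ?_
      rintro _ ⟨_, ⟨ρ, hρ, rfl⟩, rfl⟩
      exact hρ.2)
  rwa [(isClosed_couplings X Y).closure_eq] at h

/-- If `X` and `Y` are near `P`, so is some coupling of `X` and `Y`. -/
theorem directed_approx (X Y : MMSpace) (P : Pyramid) {δ : ℝ} (hδ : 0 < δ)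
    (hX : infEDist (MM.mk X) P.carrier < ENNReal.ofReal δ)
    (hY : infEDist (MM.mk Y) P.carrier < ENNReal.ofReal δ) :
    ∃ ρ ∈ couplings X Y, infEDist (cls ρ) P.carrier ≤ ENNReal.ofReal (2 * δ) := by
  obtain ⟨x', hx', hlx⟩ := exists_dist_lt_of_infEDist hX
  obtain ⟨y', hy', hly⟩ := exists_dist_lt_of_infEDist hY
  obtain ⟨X', rfl⟩ := MM.exists_rep x'
  obtain ⟨Y', rfl⟩ := MM.exists_rep y'
  obtain ⟨w, hw, hxw, hyw⟩ := P.directed _ hx' _ hy'
  obtain ⟨W, rfl⟩ := MM.exists_rep w
  obtain ⟨f, hf, hfm⟩ := MM.dom_mk.mp hxw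
  obtain ⟨g, hg, hgm⟩ := MM.dom_mk.mp hyw
  have hfg : LipschitzWith 1 (fun w => (f w, g w)) := by simpa using hf.prodMk hg
  have hσP := P.down _ hw _ (cls_push_dom hfg)
  set σ : ProbabilityMeasure (X' × Y') := push W hfg with hσ
  have hσ1 : (σ : Measure (X' × Y')).map Prod.fst = X'.μ := by
    rw [← hfm]
    exact Measure.map_map measurable_fst hfg.continuous.measurable
  have hσ2 : (σ : Measure (X' × Y')).map Prod.snd = Y'.μ := by
    rw [← hgm]
    exact Measure.map_map measurable_snd hfg.continuous.measurable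
  obtain ⟨π₁, a1, a2, S₁, hS₁, a3, a4⟩ := MM.close_of_dist_lt hlx
  obtain ⟨π₂, b1, b2, S₂, hS₂, b3, b4⟩ := (MM.close_of_dist_lt hly).symm
  have p1 := isProb_of_map_fst a1
  have p2 := isProb_of_map_fst b1
  have hne : ∀ (Z : MMSpace), Nonempty Z := by
    intro Z
    by_contra hne
    rw [not_nonempty_iff] at hne
    have : Z.μ univ = 1 := measure_univ
    rw [univ_eq_empty_iff.mpr hne] at this
    simp at this
  have n1 := hne Y'
  have n2 := hne Y
  obtain ⟨Q₁, i1, q1, q2⟩ := exists_glue π₁ (σ : Measure (X' × Y')) (a2.trans hσ1.symm)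
  have hm12 : Measurable (fun x : (X × X') × Y' => (x.1.2, x.2)) := by fun_prop
  have q3 : Q₁.map Prod.snd = π₂.map Prod.fst := by
    rw [b1, ← hσ2, ← q2, Measure.map_map measurable_snd hm12]
    rfl
  obtain ⟨Q, i2, r1, r2⟩ := exists_glue Q₁ π₂ q3
  have hm : Measurable (fun x : ((X × X') × Y') × Y => (x.1.1.1, x.2)) := by fun_prop
  have hm2 : Measurable (fun x : ((X × X') × Y') × Y => (x.1.2, x.2)) := by fun_prop
  have hm3 : Measurable (fun x : ((X × X') × Y') × Y => (x.1.1.2, x.1.2)) := by fun_prop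
  have hm4 : Measurable (fun x : ((X × X') × Y') × Y => x.1.1) := by fun_prop
  have r3 : Q.map (fun x => x.1.1) = π₁ := by
    rw [← q1, ← r1, Measure.map_map measurable_fst measurable_fst]; rfl
  let ρ : ProbabilityMeasure (X × Y) :=
    ⟨Q.map (fun x => (x.1.1.1, x.2)), Measure.isProbabilityMeasure_map hm.aemeasurable⟩
  have hρ : (ρ : Measure (X × Y)) = Q.map (fun x => (x.1.1.1, x.2)) := rfl
  refine ⟨ρ, ⟨?_, ?_⟩, ?_⟩
  · rw [hρ, ← a1, ← r3, Measure.map_map measurable_fst hm, Measure.map_map measurable_fst hm4]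
    rfl
  · rw [hρ, ← b2, ← r2, Measure.map_map measurable_snd hm, Measure.map_map measurable_snd hm2]
    rfl
  · apply infEDist_le_of_dist_le hσP
    apply dist_cls_cls_le
    refine close_of_space Q hm hm3 rfl ?_ ((fun x => x.1.1) ⁻¹' S₁ ∩ (fun x => (x.1.2, x.2)) ⁻¹' S₂)
      ?_ ?_
    · rw [← q2, ← r1, Measure.map_map hm12 measurable_fst]; rfl
    · rw [compl_inter, two_mul, ENNReal.ofReal_add hδ.le hδ.le]
      refine (measure_union_le _ _).trans (add_le_add ?_ ?_)
      · rw [← r3, Measure.map_apply hm4 hS₁.compl] at a3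
        exact a3
      · rw [← r2, Measure.map_apply hm2 hS₂.compl] at b3
        exact b3
    · rintro s ⟨hs1, hs2⟩ t ⟨ht1, ht2⟩
      have e1 := a4 _ hs1 _ ht1
      have e2 := b4 _ hs2 _ ht2
      simp only at e1 e2
      rw [abs_sub_comm] at e2
      rw [Prod.dist_eq, Prod.dist_eq]
      simp only
      refine (abs_max_sub_max_le_max _ _ _ _).trans ?_
      rw [max_le_iff]
      constructor <;> linarith

end Pool.Agent.H59.Pyr
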