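import Mathlib
import Pool.Agent.H59.Pyr.Approx

/-!
Limits of pyramids along ultrafilters.
-/

set_option autoImplicit false
set_option linter.unusedSectionVars false

open MeasureTheory Set Filter Topology TopologicalSpace

namespace Pool.Agent.H59.Pyr

open Metric

theorem infEDist_le_one (x : MM) (P : Pyramid) : infEDist x P.carrier ≤ 1 := by
  obtain ⟨y, hy⟩ := P.nonempty
  have := infEDist_le_of_dist_le hy (MM.dist_le_one x y)
  simpa using this

theorem exists_lim (𝓤 : Ultrafilter Pyramid) :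
    ∃ g : MM → ENNReal, ∀ x, Tendsto (fun P : Pyramid => infEDist x P.carrier) 𝓤 (𝓝 (g x)) := by
  have : ∀ x : MM, ∃ a : ENNReal, Tendsto (fun P : Pyramid => infEDist x P.carrier) 𝓤 (𝓝 a) := by
    intro x
    obtain ⟨a, -, ha⟩ := isCompact_univ.ultrafilter_le_nhds
      (𝓤.map (fun P : Pyramid => infEDist x P.carrier)) (by simp)
    exact ⟨a, ha⟩
  choose g hg using this
  exact ⟨g, hg⟩

section
variable {𝓤 : Ultrafilter Pyramid} {g : MM → ENNReal}
  (hg : ∀ x, Tendsto (fun P : Pyramid => infEDist x P.carrier) 𝓤 (𝓝 (g x)))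
include hg

theorem lim_le_add (x y : MM) : g x ≤ g y + edist x y :=
  le_of_tendsto_of_tendsto' (hg x) ((hg y).add tendsto_const_nhds)
    fun _ => infEDist_le_infEDist_add_edist

theorem lim_le_one (x : MM) : g x ≤ 1 := le_of_tendsto' (hg x) fun P => infEDist_le_one x P

/-- A limit of points near the pyramids has small `g`. -/
theorem lim_le_of_tendsto {u : Pyramid → MM} {u₀ : MM} (hu : Tendsto u 𝓤 (𝓝 u₀)) {a : ENNReal}
    (ha : ∀ᶠ P in (𝓤 : Filter Pyramid), infEDist (u P) P.carrier ≤ a) : g u₀ ≤ a := by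
  have h1 : Tendsto (fun P => a + edist u₀ (u P)) 𝓤 (𝓝 (a + edist u₀ u₀)) :=
    tendsto_const_nhds.add (tendsto_const_nhds.edist hu)
  rw [edist_self, add_zero] at h1
  refine le_of_tendsto_of_tendsto (hg u₀) h1 ?_
  filter_upwards [ha] with P hP
  exact infEDist_le_infEDist_add_edist.trans (by gcongr)

theorem isClosed_zero : IsClosed {x | g x = 0} := by
  apply isClosed_of_closure_subset
  intro x hx
  rw [EMetric.mem_closure_iff] at hx
  change g x = 0
  apply le_antisymm _ zero_le
  apply le_of_forall_gt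
  intro ε hε
  obtain ⟨y, hy, hxy⟩ := hx ε hε
  have := lim_le_add hg x y
  rw [show g y = 0 from hy, zero_add] at this
  exact this.trans_lt hxy

theorem lim_eq_infEDist (x : MM) : g x = infEDist x {x | g x = 0} := by
  apply le_antisymm
  · rw [le_infEDist]
    intro y hy
    have := lim_le_add hg x y
    rwa [show g y = 0 from hy, zero_add] at this
  · have htop : g x ≠ ⊤ := ne_top_of_le_ne_top ENNReal.one_ne_top (lim_le_one hg x)
    apply ENNReal.le_of_forall_pos_le_add
    intro ε hε _
    have hε' : (0 : ℝ) < ε := hε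
    set r : ℝ := (g x).toReal + ε / 2 with hr
    have hgr : g x < ENNReal.ofReal r := by
      rw [ENNReal.lt_ofReal_iff_toReal_lt htop]
      linarith
    obtain ⟨N, R, H⟩ := exists_cube_pyramid x (half_pos hε')
    have hch : ∀ P : Pyramid, ∃ ν : ProbabilityMeasure (Cube N R),
        infEDist x P.carrier < ENNReal.ofReal r →
        cls ν ∈ P.carrier ∧ dist x (cls ν) ≤ r + ε / 2 := by
      intro P
      by_cases h : infEDist x P.carrier < ENNReal.ofReal r
      · obtain ⟨ν, h1, h2⟩ := H P r h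
        exact ⟨ν, fun _ => ⟨h1, h2⟩⟩
      · have : Nonempty (ProbabilityMeasure (Cube N R)) :=
          ⟨⟨Measure.dirac (Classical.arbitrary _), inferInstance⟩⟩
        exact ⟨Classical.arbitrary _, fun h' => absurd h' h⟩
    choose ν hν using hch
    obtain ⟨ν₀, -, hν₀⟩ := isCompact_univ.ultrafilter_le_nhds (𝓤.map ν) (by simp)
    have hev := (hg x).eventually (gt_mem_nhds hgr)
    have ht : Tendsto (fun P => cls (ν P)) 𝓤 (𝓝 (cls ν₀)) :=
      (continuous_cls.tendsto ν₀).comp hν₀
    have hz : g (cls ν₀) = 0 := by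
      apply le_antisymm _ zero_le
      apply lim_le_of_tendsto hg ht
      filter_upwards [hev] with P hP
      exact (infEDist_zero_of_mem (hν P hP).1).le
    have hd : dist x (cls ν₀) ≤ r + ε / 2 := by
      refine le_of_tendsto (tendsto_const_nhds.dist ht) ?_
      filter_upwards [hev] with P hP
      exact (hν P hP).2
    refine (infEDist_le_of_dist_le (show cls ν₀ ∈ {x | g x = 0} from hz) hd).trans ?_
    have : r + ε / 2 = (g x).toReal + ε := by rw [hr]; ring
    rw [this, ENNReal.ofReal_add ENNReal.toReal_nonneg hε'.le, ENNReal.ofReal_toReal htop]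
    simp

theorem lim_down {x x' : MM} (h : MM.Dom x' x) (hx : g x = 0) : g x' = 0 := by
  apply le_antisymm _ zero_le
  apply ENNReal.le_of_forall_pos_le_add
  intro ε hε _
  have hε' : (0 : ℝ) < ε := hε
  have h3 : (0 : ℝ) < ε / 3 := by positivity
  have hev := (hg x).eventually (gt_mem_nhds (show g x < ENNReal.ofReal (ε / 3) by
    rw [hx]; exact ENNReal.ofReal_pos.mpr h3))
  refine le_of_tendsto (hg x') ?_
  filter_upwards [hev] with P hP
  refine (down_approx h P h3 hP).trans ?_
  rw [mul_div_cancel₀ _ (three_ne_zero)]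
  simp

theorem lim_directed {x y : MM} (hx : g x = 0) (hy : g y = 0) :
    ∃ z, g z = 0 ∧ MM.Dom x z ∧ MM.Dom y z := by
  obtain ⟨X, rfl⟩ := MM.exists_rep x
  obtain ⟨Y, rfl⟩ := MM.exists_rep y
  have hmin : ∀ P : Pyramid, ∃ ρ ∈ couplings X Y, ∀ ρ' ∈ couplings X Y,
      infEDist (cls ρ) P.carrier ≤ infEDist (cls ρ') P.carrier := by
    intro P
    obtain ⟨ρ, hρ, hm⟩ := (isCompact_couplings X Y).exists_isMinOn (couplings_nonempty X Y)
      (f := fun ρ => infEDist (cls ρ) P.carrier)
      (continuous_infEDist.comp continuous_cls).continuousOn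
    exact ⟨ρ, hρ, fun ρ' hρ' => hm hρ'⟩
  choose ρ hρ hm using hmin
  obtain ⟨ρ₀, hρ₀, ht⟩ := (isCompact_couplings X Y).ultrafilter_le_nhds (𝓤.map ρ) (by
    rw [le_principal_iff, Ultrafilter.mem_coe, Ultrafilter.mem_map]
    exact Filter.univ_mem' (f := (𝓤 : Filter Pyramid)) hρ)
  refine ⟨cls ρ₀, ?_, ?_, ?_⟩
  · apply le_antisymm _ zero_le
    apply ENNReal.le_of_forall_pos_le_add
    intro ε hε _
    have hε' : (0 : ℝ) < ε := hε
    have h3 : (0 : ℝ) < ε / 2 := by positivity
    have hev := (hg _).eventually (gt_mem_nhds (show g (MM.mk X) < ENNReal.ofReal (ε / 2) by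
      rw [hx]; exact ENNReal.ofReal_pos.mpr h3))
    have hev' := (hg _).eventually (gt_mem_nhds (show g (MM.mk Y) < ENNReal.ofReal (ε / 2) by
      rw [hy]; exact ENNReal.ofReal_pos.mpr h3))
    refine lim_le_of_tendsto hg (u := fun P => cls (ρ P)) ((continuous_cls.tendsto ρ₀).comp ht) ?_
    filter_upwards [hev, hev'] with P hP hP'
    obtain ⟨ρ', hρ', hle⟩ := directed_approx X Y P h3 hP hP'
    refine (hm P ρ' hρ').trans (hle.trans ?_)
    rw [mul_div_cancel₀ _ (two_ne_zero)]
    simp
  · rw [cls, MM.dom_mk]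
    refine ⟨fun p => p.1.1, ?_, ?_⟩
    · exact LipschitzWith.of_dist_le_mul fun p q => by
        rw [NNReal.coe_one, one_mul]
        exact le_max_left _ _
    · rw [← hρ₀.1]
      conv_rhs => rw [← map_val_comap (ρ₀ : Measure (X × Y))]
      rw [Measure.map_map measurable_fst measurable_subtype_coe]
      rfl
  · rw [cls, MM.dom_mk]
    refine ⟨fun p => p.1.2, ?_, ?_⟩
    · exact LipschitzWith.of_dist_le_mul fun p q => by
        rw [NNReal.coe_one, one_mul]
        exact le_max_right _ _
    · rw [← hρ₀.2]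
      conv_rhs => rw [← map_val_comap (ρ₀ : Measure (X × Y))]
      rw [Measure.map_map measurable_snd measurable_subtype_coe]
      rfl

end

/-- Every ultrafilter of pyramids converges, in the sense of the distance functions. -/
theorem exists_pyramid_lim (𝓤 : Ultrafilter Pyramid) :
    ∃ Z : Pyramid, ∀ x, Tendsto (fun P : Pyramid => infEDist x P.carrier) 𝓤
      (𝓝 (infEDist x Z.carrier)) := by
  obtain ⟨g, hg⟩ := exists_lim 𝓤
  have hne : {x | g x = 0}.Nonempty := by
    rw [nonempty_iff_ne_empty]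
    intro h
    have h1 := lim_eq_infEDist hg (MM.mk (ofMeasure (Measure.dirac ())))
    rw [h, infEDist_empty] at h1
    have h2 := lim_le_one hg (MM.mk (ofMeasure (Measure.dirac ())))
    rw [h1] at h2
    exact absurd h2 (by simp)
  refine ⟨⟨{x | g x = 0}, hne, isClosed_zero hg, fun x hx y hyx => lim_down hg hyx hx, ?_⟩, ?_⟩
  · intro x hx y hy
    exact lim_directed hg hx hy
  · intro x
    rw [← lim_eq_infEDist hg x]
    exact hg x

end Pool.Agent.H59.Pyr
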