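import Mathlib
import Pool.Agent.H59.Pyr.Ultra

/-!
The weak topology on pyramids exists, is unique, and is induced both by the Wijsman and by the
Fell topology.
-/

set_option autoImplicit false
set_option linter.unusedSectionVars false

open MeasureTheory Set Filter Topology TopologicalSpace

namespace Pool.Agent.H59.Pyr

open Metric Pyramid

theorem mem_iff_infEDist_zero (P : Pyramid) (x : MM) : x ∈ P.carrier ↔ infEDist x P.carrier = 0 := by
  rw [← mem_closure_iff_infEDist_zero, P.isClosed.closure_eq]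

/-- The topology on pyramids induced by the Wijsman topology. -/
@[instance_reducible]
noncomputable def weakTop : TopologicalSpace Pyramid :=
  TopologicalSpace.induced toCloseds wijsmanTopology

theorem weakTop_eq : weakTop =
    ⨅ x : MM, TopologicalSpace.induced (fun P : Pyramid => infEDist x P.carrier) inferInstance := by
  rw [weakTop, wijsmanTopology, induced_iInf]
  refine iInf_congr fun x => ?_
  rw [induced_compose]
  rfl

theorem tendsto_weakTop_iff {ι : Type*} {l : Filter ι} {u : ι → Pyramid} {Q : Pyramid} :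
    Tendsto u l (@nhds Pyramid weakTop Q) ↔
      ∀ x, Tendsto (fun i => infEDist x (u i).carrier) l (𝓝 (infEDist x Q.carrier)) := by
  rw [weakTop_eq, nhds_iInf, tendsto_iInf]
  refine forall_congr' fun x => ?_
  rw [nhds_induced, tendsto_comap_iff]
  rfl

theorem continuous_infEDist_weakTop (x : MM) :
    @Continuous Pyramid ENNReal weakTop _ (fun P => infEDist x P.carrier) := by
  let := weakTop
  rw [continuous_iff_continuousAt]
  intro P
  exact tendsto_weakTop_iff.mp tendsto_id x

theorem compactSpace_weakTop : @CompactSpace Pyramid weakTop := by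
  let := weakTop
  constructor
  rw [isCompact_iff_ultrafilter_le_nhds]
  intro 𝓤 _
  obtain ⟨Z, hZ⟩ := exists_pyramid_lim 𝓤
  exact ⟨Z, mem_univ _, tendsto_weakTop_iff.mpr hZ⟩

theorem separableSpace_MM : SeparableSpace MM := by
  rw [← isSeparable_univ_iff]
  have h1 : IsSeparable (⋃ N : ℕ, ⋃ R : ℕ, cubeSet N R) :=
    IsSeparable.iUnion fun N => IsSeparable.iUnion fun R => (isCompact_cubeSet N R).isSeparable
  have h2 : closure (⋃ N : ℕ, ⋃ R : ℕ, cubeSet N R) = univ := by
    rw [eq_univ_iff_forall]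
    intro x
    rw [Metric.mem_closure_iff]
    intro ε hε
    obtain ⟨N, R, H⟩ := exists_cube x (half_pos hε)
    obtain ⟨ν, -, hν⟩ := H x (ε / 4) (by rw [dist_self]; positivity)
    exact ⟨cls ν, mem_iUnion.mpr ⟨N, mem_iUnion.mpr ⟨R, ν, rfl⟩⟩, by linarith⟩
  rw [← h2]
  exact h1.closure

theorem metrizableSpace_weakTop : @MetrizableSpace Pyramid weakTop := by
  let := weakTop
  have := compactSpace_weakTop
  have := separableSpace_MM
  have : Nonempty MM := ⟨MM.mk (ofMeasure (Measure.dirac ()))⟩
  let Φ : Pyramid → (ℕ → ENNReal) := fun P n => infEDist (denseSeq MM n) P.carrier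
  have hΦ : Continuous Φ := continuous_pi fun n => continuous_infEDist_weakTop _
  have hinj : Function.Injective Φ := by
    intro P Q h
    have h1 : (fun x => infEDist x P.carrier) = fun x => infEDist x Q.carrier := by
      apply (denseRange_denseSeq MM).equalizer continuous_infEDist continuous_infEDist
      funext n
      exact congrFun h n
    apply Pyramid.ext
    ext x
    rw [mem_iff_infEDist_zero, mem_iff_infEDist_zero, congrFun h1 x]
  exact (hΦ.isClosedEmbedding hinj).isEmbedding.metrizableSpace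

theorem tendsto_weakTop_iff_weakConv (P : ℕ → Pyramid) (Q : Pyramid) :
    Tendsto P atTop (@nhds Pyramid weakTop Q) ↔ WeakConv P Q := by
  constructor
  · intro h
    rw [tendsto_weakTop_iff] at h
    constructor
    · intro x hx
      have := h x
      rwa [(mem_iff_infEDist_zero Q x).mp hx] at this
    · intro x hx
      rw [(h x).liminf_eq]
      exact pos_iff_ne_zero.mpr fun h0 => hx ((mem_iff_infEDist_zero Q x).mpr h0)
  · rintro ⟨h1, h2⟩
    rw [tendsto_iff_ultrafilter]
    intro 𝓤 h𝓤
    obtain ⟨Z, hZ⟩ := exists_pyramid_lim (𝓤.map P)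
    have hle : (𝓤 : Filter ℕ) ≤ atTop := h𝓤
    have hZ' : ∀ x, Tendsto (fun n => infEDist x (P n).carrier) 𝓤 (𝓝 (infEDist x Z.carrier)) :=
      fun x => hZ x
    have hZQ : Z = Q := by
      apply Pyramid.ext
      ext x
      constructor
      · intro hx
        by_contra hxQ
        have h3 := h2 x hxQ
        obtain ⟨a, ha0, ha⟩ := exists_between h3
        have h4 := eventually_lt_of_lt_liminf ha
        have h5 : a ≤ infEDist x Z.carrier :=
          ge_of_tendsto (hZ' x) (Filter.Eventually.mono (hle h4) fun n hn => le_of_lt hn)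
        rw [(mem_iff_infEDist_zero Z x).mp hx] at h5
        exact absurd h5 (not_le.mpr ha0)
      · intro hx
        rw [mem_iff_infEDist_zero]
        exact tendsto_nhds_unique (hZ' x) ((h1 x hx).mono_left hle)
    rw [← hZQ]
    exact tendsto_weakTop_iff.mpr hZ'

theorem isWeakTopology_weakTop : IsWeakTopology weakTop :=
  ⟨compactSpace_weakTop, metrizableSpace_weakTop, tendsto_weakTop_iff_weakConv⟩

theorem isWeak_le {τ τ' : TopologicalSpace Pyramid} (h : IsWeakTopology τ)
    (h' : IsWeakTopology τ') : τ ≤ τ' := by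
  rw [← continuous_id_iff_le]
  have := h.2.1
  apply @SeqContinuous.continuous Pyramid Pyramid τ τ' _ id
  intro P Q hP
  exact (h'.2.2 P Q).mpr ((h.2.2 P Q).mp hP)

theorem isWeak_eq {τ τ' : TopologicalSpace Pyramid} (h : IsWeakTopology τ)
    (h' : IsWeakTopology τ') : τ = τ' := le_antisymm (isWeak_le h h') (isWeak_le h' h)

theorem existsUnique_weakTopology : ∃! τ, IsWeakTopology τ :=
  ⟨weakTop, isWeakTopology_weakTop, fun _ h => isWeak_eq h isWeakTopology_weakTop⟩

theorem toCloseds_injective : Function.Injective toCloseds := by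
  intro P Q h
  apply Pyramid.ext
  exact congrArg (fun F : Closeds MM => (F : Set MM)) h

/-! ### Wijsman -/

theorem wijsman_embedding (τ : TopologicalSpace Pyramid) (h : IsWeakTopology τ) :
    @IsEmbedding Pyramid (Closeds MM) τ wijsmanTopology toCloseds := by
  rw [isWeak_eq h isWeakTopology_weakTop]
  exact @IsEmbedding.mk _ _ weakTop wijsmanTopology _ (@IsInducing.mk _ _ weakTop wijsmanTopology _ rfl)
    toCloseds_injective

/-! ### Fell -/

theorem isOpen_meets {U : Set MM} (hU : IsOpen U) :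
    @IsOpen Pyramid weakTop {P | (P.carrier ∩ U).Nonempty} := by
  let := weakTop
  rw [isOpen_iff_mem_nhds]
  rintro P ⟨x, hxP, hxU⟩
  obtain ⟨ε, hε, hball⟩ := EMetric.isOpen_iff.mp hU x hxU
  have h0 : infEDist x P.carrier < ε := by
    rw [(mem_iff_infEDist_zero P x).mp hxP]; exact hε
  filter_upwards [(continuous_infEDist_weakTop x).continuousAt.eventually (gt_mem_nhds h0)]
    with P' hP'
  obtain ⟨y, hy, hlt⟩ := infEDist_lt_iff.mp hP'
  exact ⟨y, hy, hball (by rw [Metric.mem_eball, edist_comm]; exact hlt)⟩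

theorem isClosed_meets {K : Set MM} (hK : IsCompact K) :
    @IsClosed Pyramid weakTop {P | (P.carrier ∩ K).Nonempty} := by
  let := weakTop
  rw [isClosed_iff_ultrafilter]
  intro P 𝓤 h𝓤 hmem
  have hlim := tendsto_weakTop_iff.mp (show Tendsto id (𝓤 : Filter Pyramid) (𝓝 P) from h𝓤)
  simp only [id] at hlim
  have hKne : K.Nonempty := by
    obtain ⟨P', x, -, hx⟩ := 𝓤.nonempty_of_mem hmem
    exact ⟨x, hx⟩
  have hch : ∀ P' : Pyramid, ∃ y ∈ K, (P'.carrier ∩ K).Nonempty → y ∈ P'.carrier := by
    intro P'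
    by_cases h : (P'.carrier ∩ K).Nonempty
    · obtain ⟨y, hy, hyK⟩ := h
      exact ⟨y, hyK, fun _ => hy⟩
    · obtain ⟨y, hy⟩ := hKne
      exact ⟨y, hy, fun h' => absurd h' h⟩
  choose y hyK hy using hch
  obtain ⟨y₀, hy₀, ht⟩ := hK.ultrafilter_le_nhds (𝓤.map y) (by
    rw [le_principal_iff, Ultrafilter.mem_coe, Ultrafilter.mem_map]
    exact Filter.univ_mem' (f := (𝓤 : Filter Pyramid)) hyK)
  refine ⟨y₀, ?_, hy₀⟩
  rw [mem_iff_infEDist_zero]
  apply le_antisymm _ zero_le
  apply lim_le_of_tendsto hlim (u := y) ht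
  filter_upwards [hmem] with P' hP'
  exact (infEDist_zero_of_mem (hy P' hP')).le

theorem continuous_fell : @Continuous Pyramid (Closeds MM) weakTop fellTopology toCloseds := by
  let := weakTop
  rw [fellTopology, continuous_generateFrom_iff]
  rintro V (⟨U, hU, rfl⟩ | ⟨K, hK, rfl⟩)
  · exact isOpen_meets hU
  · have := (isClosed_meets hK).isOpen_compl
    convert this using 1
    ext P
    simp only [mem_preimage, mem_ofPred_eq, mem_compl_iff, not_nonempty_iff_eq_empty]
    rfl

theorem separate_fell {P Q : Pyramid} {x : MM} (hx : x ∈ P.carrier) (hxQ : x ∉ Q.carrier) :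
    ∃ U V : Set (Closeds MM), @IsOpen _ fellTopology U ∧ @IsOpen _ fellTopology V ∧
      P.toCloseds ∈ U ∧ Q.toCloseds ∈ V ∧ Disjoint (toCloseds ⁻¹' U) (toCloseds ⁻¹' V) := by
  have h0 : 0 < infEDist x Q.carrier :=
    pos_iff_ne_zero.mpr fun h => hxQ ((mem_iff_infEDist_zero Q x).mpr h)
  obtain ⟨δ, hδ0, hδ⟩ := ENNReal.lt_iff_exists_nnreal_btwn.mp h0
  have hδ' : (0 : ℝ) < δ := by exact_mod_cast hδ0
  obtain ⟨N, R, H⟩ := exists_cube_pyramid x (show (0 : ℝ) < δ / 2 by positivity)
  let K : Set MM := cubeSet N R ∩ closedBall x δ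
  have hK : IsCompact K := (isCompact_cubeSet N R).inter_right isClosed_closedBall
  refine ⟨{F | ((F : Set MM) ∩ ball x (δ / 2)).Nonempty}, {F | (F : Set MM) ∩ K = ∅},
    isOpen_generateFrom_of_mem (Or.inl ⟨_, isOpen_ball, rfl⟩),
    isOpen_generateFrom_of_mem (Or.inr ⟨K, hK, rfl⟩), ?_, ?_, ?_⟩
  · exact ⟨x, hx, mem_ball_self (by positivity)⟩
  · change Q.carrier ∩ K = ∅
    rw [eq_empty_iff_forall_notMem]
    rintro y ⟨hyQ, -, hy⟩
    have h1 : infEDist x Q.carrier ≤ ENNReal.ofReal δ :=
      infEDist_le_of_dist_le hyQ (by rw [dist_comm]; exact hy)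
    rw [ENNReal.ofReal_coe_nnreal] at h1
    exact absurd h1 (not_le.mpr hδ)
  · rw [Set.disjoint_left]
    rintro P' ⟨y, hyP, hy⟩ h2
    change P'.carrier ∩ K = ∅ at h2
    have h3 : infEDist x P'.carrier < ENNReal.ofReal (δ / 2) := by
      refine (infEDist_le_edist_of_mem hyP).trans_lt ?_
      rw [edist_dist]
      rw [mem_ball, dist_comm] at hy
      exact (ENNReal.ofReal_lt_ofReal_iff (by positivity)).mpr hy
    obtain ⟨ν, hν, hd⟩ := H P' _ h3
    have h4 : cls ν ∈ P'.carrier ∩ K := by
      refine ⟨hν, ⟨ν, rfl⟩, ?_⟩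
      rw [mem_closedBall, dist_comm]
      linarith
    rw [h2] at h4
    exact h4

theorem t2_fell : @T2Space Pyramid (TopologicalSpace.induced toCloseds fellTopology) := by
  let : TopologicalSpace (Closeds MM) := fellTopology
  let : TopologicalSpace Pyramid := TopologicalSpace.induced toCloseds fellTopology
  have hc : Continuous toCloseds := continuous_induced_dom
  constructor
  intro P Q hPQ
  have hne : ¬ (P.carrier ⊆ Q.carrier ∧ Q.carrier ⊆ P.carrier) := fun h =>
    hPQ (Pyramid.ext (subset_antisymm h.1 h.2))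
  rw [not_and_or, not_subset, not_subset] at hne
  rcases hne with ⟨x, hx, hx'⟩ | ⟨x, hx, hx'⟩
  · obtain ⟨U, V, hU, hV, h1, h2, h3⟩ := separate_fell hx hx'
    exact ⟨_, _, hU.preimage hc, hV.preimage hc, h1, h2, h3⟩
  · obtain ⟨U, V, hU, hV, h1, h2, h3⟩ := separate_fell hx hx'
    exact ⟨_, _, hV.preimage hc, hU.preimage hc, h2, h1, h3.symm⟩

theorem eq_of_le_compact_t2 {X : Type*} {t t' : TopologicalSpace X} (hc : @CompactSpace X t)
    (h2 : @T2Space X t') (h : t ≤ t') : t = t' := by
  have hcont : @Continuous X X t t' id := continuous_id_iff_le.mpr h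
  have h1 : @IsClosedEmbedding X X t t' id :=
    @Continuous.isClosedEmbedding X X t t' hc h2 id hcont Function.injective_id
  obtain ⟨⟨⟨h4⟩, -⟩, -⟩ := h1
  rwa [induced_id] at h4

theorem weakTop_eq_fell : weakTop = TopologicalSpace.induced toCloseds fellTopology :=
  eq_of_le_compact_t2 compactSpace_weakTop t2_fell (continuous_iff_le_induced.mp continuous_fell)

theorem fell_embedding (τ : TopologicalSpace Pyramid) (h : IsWeakTopology τ) :
    @IsEmbedding Pyramid (Closeds MM) τ fellTopology toCloseds := by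
  rw [isWeak_eq h isWeakTopology_weakTop]
  exact @IsEmbedding.mk _ _ weakTop fellTopology _
    (@IsInducing.mk _ _ weakTop fellTopology _ weakTop_eq_fell) toCloseds_injective

end Pool.Agent.H59.Pyr
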